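import Pool.Agent.W_MP_9fa5c3_co.Check

/-!
# MP_9fa5c3_co : the certificate

`ini p q r` is the state of the four vertices `a, a', c, c'` with `a c` blue and with the colours
`p` of `a c'`, `q` of `a' c`, `r` of `a' c'` (`true` = red); no vertex is a common red neighbour
of `a` and `c`.  `cert p q r` is the decision tree for it.
-/

namespace PoolAgent.MP9fa5c3.Cert

/-- the initial state -/
def ini (p q r : Bool) : St where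
  k := 4
  sp := [(if p then 8 else 0, if p then 4 else 12),
    (Nat.add (if q then 4 else 0) (if r then 8 else 0),
      Nat.add (if q then 0 else 4) (if r then 0 else 8)),
    (if q then 2 else 0, if q then 1 else 3),
    (Nat.add (if p then 1 else 0) (if r then 2 else 0),
      Nat.add (if p then 0 else 1) (if r then 0 else 2))]
  ty := [(0, 15), (1, 14), (2, 13), (3, 12), (4, 11), (6, 9), (8, 7), (9, 6), (10, 5), (11, 4),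
    (12, 3), (14, 1)]
  fs := []

/-- a part of the certificate -/
def c0 : Tree :=
  .exN ⟨false, 63, [(0, 9), (0, 28), (0, 44), (0, 49)]⟩ ⟨true, 41, [(0, 9), (0, 33), (0, 40)]⟩ 0 1
    (.viol ⟨true, 11, [(0, 3), (0, 9), (0, 10)]⟩ ⟨false, 63, [(0, 9), (0, 14), (0, 19), (0, 28),
    (0, 53)]⟩ 1 (.cons (.viol ⟨false, 102, [(0, 6), (0, 68), (64, 4)]⟩ ⟨false, 25, [(0, 9), (0,
    17), (64, 24)]⟩ 1 (.cons (.leaf ⟨true, 251, [(0, 11), (0, 51), (0, 137), (0, 138), (0, 145),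
    (0, 168), (0, 194)]⟩ ⟨false, 157, [(0, 9), (0, 21), (0, 28), (0, 140), (0, 145)]⟩) (.cons
    (.leaf ⟨true, 251, [(0, 3), (0, 66), (0, 138), (0, 193)]⟩ ⟨false, 71, [(0, 3), (0, 65), (0,
    70)]⟩) (.cons (.leaf ⟨true, 251, [(0, 3), (0, 66), (0, 162), (0, 193)]⟩ ⟨false, 71, [(0, 3),
    (0, 65), (0, 70)]⟩) (.cons (.leaf ⟨true, 251, [(0, 3), (0, 66), (0, 138), (0, 146), (0, 193)]⟩
    ⟨false, 71, [(0, 3), (0, 65), (0, 70)]⟩) (.nil)))))) (.cons (.viol ⟨false, 102, [(0, 6), (0,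
    68), (64, 4)]⟩ ⟨false, 25, [(0, 9), (0, 17), (64, 24)]⟩ 1 (.cons (.leaf ⟨true, 179, [(0, 34),
    (0, 130), (0, 160)]⟩ ⟨false, 238, [(0, 38), (0, 78), (0, 130), (0, 168), (0, 196), (0, 224)]⟩)
    (.cons (.leaf ⟨true, 219, [(0, 3), (0, 66), (0, 138), (0, 193)]⟩ ⟨false, 103, [(0, 3), (0,
    65), (0, 70)]⟩) (.cons (.leaf ⟨true, 219, [(0, 3), (0, 66), (0, 138), (0, 193)]⟩ ⟨false, 103,
    [(0, 3), (0, 65), (0, 70)]⟩) (.cons (.leaf ⟨true, 219, [(0, 3), (0, 66), (0, 138), (0, 146),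
    (0, 193)]⟩ ⟨false, 103, [(0, 3), (0, 65), (0, 70)]⟩) (.nil)))))) (.cons (.viol ⟨false, 102,
    [(0, 6), (0, 68), (64, 4)]⟩ ⟨false, 25, [(0, 9), (0, 17), (64, 24)]⟩ 1 (.cons (.exN ⟨true,
    235, [(0, 3), (0, 66), (0, 170), (0, 193)]⟩ ⟨false, 87, [(0, 19), (0, 65), (0, 70)]⟩ 1 6
    (.leaf ⟨true, 179, [(0, 35), (0, 129), (0, 130), (0, 160)]⟩ ⟨false, 206, [(0, 130), (0,
    192)]⟩)) (.cons (.leaf ⟨true, 97, [(0, 64)]⟩ ⟨false, 222, [(0, 70), (0, 72), (0, 80)]⟩) (.cons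
    (.leaf ⟨false, 102, [(0, 6), (0, 66), (0, 68)]⟩ ⟨false, 153, [(0, 9), (0, 17)]⟩) (.cons (.exN
    ⟨true, 203, [(0, 3), (0, 10), (0, 66), (0, 201)]⟩ ⟨false, 127, [(0, 14), (0, 19), (0, 70), (0,
    73), (0, 117)]⟩ 1 6 (.leaf ⟨true, 171, [(0, 11), (0, 35), (0, 129), (0, 130), (0, 168)]⟩
    ⟨false, 212, [(0, 144), (0, 192)]⟩)) (.nil)))))) (.cons (.viol ⟨false, 102, [(0, 6), (0, 68),
    (64, 4)]⟩ ⟨false, 25, [(0, 9), (0, 17), (64, 24)]⟩ 1 (.cons (.leaf ⟨true, 179, [(0, 50), (0,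
    130), (0, 145), (0, 160)]⟩ ⟨false, 254, [(0, 54), (0, 78), (0, 88), (0, 116), (0, 146), (0,
    152), (0, 168), (0, 204), (0, 208)]⟩) (.cons (.leaf ⟨true, 233, [(0, 96), (0, 161), (0, 168),
    (0, 192)]⟩ ⟨false, 254, [(0, 72), (0, 102), (0, 112), (0, 168), (0, 208)]⟩) (.cons (.leaf
    ⟨true, 233, [(0, 40), (0, 96), (0, 161), (0, 201)]⟩ ⟨false, 126, [(0, 40), (0, 72), (0, 102),
    (0, 112)]⟩) (.cons (.leaf ⟨true, 233, [(0, 40), (0, 96), (0, 161), (0, 201)]⟩ ⟨false, 126,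
    [(0, 40), (0, 72), (0, 102), (0, 112)]⟩) (.nil)))))) (.nil))))))

/-- a part of the certificate -/
def c1 : Tree :=
  .viol ⟨true, 43, [(0, 3), (0, 9), (0, 10)]⟩ ⟨false, 31, [(0, 9), (0, 14), (0, 19), (0, 28)]⟩ 1
    (.cons (.viol ⟨false, 102, [(0, 6), (0, 68), (64, 4)]⟩ ⟨false, 25, [(0, 9), (0, 17), (64,
    24)]⟩ 1 (.cons (.leaf ⟨true, 251, [(0, 11), (0, 136), (0, 145), (0, 226)]⟩ ⟨false, 157, [(0,
    9), (0, 21), (0, 28), (0, 140), (0, 145)]⟩) (.cons (.leaf ⟨true, 179, [(0, 34), (0, 130), (0,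
    160)]⟩ ⟨false, 238, [(0, 34), (0, 78), (0, 130), (0, 168), (0, 224)]⟩) (.cons (.leaf ⟨true,
    251, [(0, 3), (0, 66), (0, 193)]⟩ ⟨false, 71, [(0, 3), (0, 65), (0, 70)]⟩) (.cons (.leaf
    ⟨true, 251, [(0, 3), (0, 66), (0, 138), (0, 193)]⟩ ⟨false, 71, [(0, 3), (0, 65), (0, 70)]⟩)
    (.cons (.leaf ⟨true, 251, [(0, 3), (0, 66), (0, 178), (0, 193)]⟩ ⟨false, 71, [(0, 3), (0, 65),
    (0, 70)]⟩) (.cons (.leaf ⟨true, 251, [(0, 3), (0, 66), (0, 138), (0, 178), (0, 193)]⟩ ⟨false,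
    71, [(0, 3), (0, 65), (0, 70)]⟩) (.cons (.leaf ⟨true, 251, [(0, 3), (0, 66), (0, 138), (0,
    146), (0, 193)]⟩ ⟨false, 71, [(0, 3), (0, 65), (0, 70)]⟩) (.cons (.leaf ⟨true, 251, [(0, 3),
    (0, 66), (0, 138), (0, 193)]⟩ ⟨false, 71, [(0, 3), (0, 65), (0, 70)]⟩) (.nil)))))))))) (.cons
    (.viol ⟨false, 102, [(0, 6), (0, 68), (64, 4)]⟩ ⟨false, 25, [(0, 9), (0, 17), (64, 24)]⟩ 1
    (.cons (.leaf ⟨true, 182, [(0, 18), (0, 144), (0, 162)]⟩ ⟨false, 89, [(0, 16)]⟩) (.cons (.leaf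
    ⟨true, 179, [(0, 35), (0, 50), (0, 145), (0, 146), (0, 160)]⟩ ⟨false, 254, [(0, 50), (0, 56),
    (0, 78), (0, 88), (0, 112), (0, 146), (0, 152), (0, 168), (0, 208)]⟩) (.cons (.leaf ⟨true, 65,
    [(0, 64)]⟩ ⟨false, 254, [(0, 70), (0, 72), (0, 80)]⟩) (.cons (.leaf ⟨true, 65, [(0, 64)]⟩
    ⟨false, 254, [(0, 70), (0, 72), (0, 80)]⟩) (.cons (.leaf ⟨true, 182, [(0, 18), (0, 144), (0,
    162)]⟩ ⟨false, 89, [(0, 16)]⟩) (.cons (.leaf ⟨true, 150, [(0, 22), (0, 130), (0, 132), (0,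
    144)]⟩ ⟨false, 253, [(0, 20), (0, 57), (0, 89), (0, 113), (0, 145), (0, 204)]⟩) (.cons (.leaf
    ⟨true, 182, [(0, 18), (0, 144), (0, 162)]⟩ ⟨false, 89, [(0, 16)]⟩) (.cons (.leaf ⟨true, 150,
    [(0, 22), (0, 130), (0, 132), (0, 144)]⟩ ⟨false, 253, [(0, 20), (0, 145), (0, 204)]⟩)
    (.nil)))))))))) (.nil)))

/-- a part of the certificate -/
def c2 : Tree :=
  .viol ⟨true, 11, [(0, 3), (0, 9), (0, 10)]⟩ ⟨false, 63, [(0, 9), (0, 14), (0, 19), (0, 28)]⟩ 1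
    (.cons (.viol ⟨false, 70, [(0, 6), (0, 68), (64, 4)]⟩ ⟨false, 57, [(0, 9), (0, 17), (64, 24)]⟩
    1 (.cons (.leaf ⟨true, 246, [(0, 34), (0, 36), (0, 160), (0, 198)]⟩ ⟨false, 41, [(0, 32)]⟩)
    (.cons (.leaf ⟨true, 219, [(0, 11), (0, 129), (0, 136), (0, 194)]⟩ ⟨false, 173, [(0, 9), (0,
    37), (0, 129), (0, 140)]⟩) (.cons (.leaf ⟨true, 227, [(0, 35), (0, 129), (0, 160), (0, 194)]⟩
    ⟨false, 189, [(0, 21), (0, 25), (0, 28), (0, 41), (0, 49), (0, 137), (0, 145), (0, 172), (0,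
    180)]⟩) (.cons (.leaf ⟨true, 251, [(0, 3), (0, 66), (0, 170), (0, 193)]⟩ ⟨false, 71, [(0, 3),
    (0, 65), (0, 70)]⟩) (.cons (.leaf ⟨true, 246, [(0, 18), (0, 144)]⟩ ⟨false, 153, [(0, 16)]⟩)
    (.cons (.leaf ⟨true, 251, [(0, 3), (0, 66), (0, 170), (0, 193)]⟩ ⟨false, 71, [(0, 3), (0, 65),
    (0, 70)]⟩) (.cons (.leaf ⟨true, 246, [(0, 18), (0, 144), (0, 162), (0, 198)]⟩ ⟨false, 25, [(0,
    16)]⟩) (.cons (.leaf ⟨true, 251, [(0, 3), (0, 66), (0, 162), (0, 193)]⟩ ⟨false, 71, [(0, 3),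
    (0, 65), (0, 70)]⟩) (.nil)))))))))) (.cons (.viol ⟨false, 70, [(0, 6), (0, 68), (64, 4)]⟩
    ⟨false, 57, [(0, 9), (0, 17), (64, 24)]⟩ 1 (.cons (.leaf ⟨true, 182, [(0, 34), (0, 36), (0,
    134), (0, 160)]⟩ ⟨false, 105, [(0, 32)]⟩) (.cons (.leaf ⟨true, 219, [(0, 11), (0, 136), (0,
    145)]⟩ ⟨false, 189, [(0, 9), (0, 21), (0, 28), (0, 140), (0, 145)]⟩) (.cons (.leaf ⟨true, 219,
    [(0, 3), (0, 66), (0, 138), (0, 193)]⟩ ⟨false, 103, [(0, 3), (0, 65), (0, 70)]⟩) (.cons (.leaf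
    ⟨true, 219, [(0, 3), (0, 66), (0, 138), (0, 193)]⟩ ⟨false, 103, [(0, 3), (0, 65), (0, 70)]⟩)
    (.cons (.leaf ⟨true, 219, [(0, 3), (0, 10), (0, 66), (0, 201)]⟩ ⟨false, 111, [(0, 3), (0, 14),
    (0, 70), (0, 73), (0, 101)]⟩) (.cons (.leaf ⟨true, 219, [(0, 3), (0, 66), (0, 193)]⟩ ⟨false,
    103, [(0, 3), (0, 65), (0, 70)]⟩) (.cons (.leaf ⟨true, 219, [(0, 3), (0, 66), (0, 138), (0,
    193)]⟩ ⟨false, 103, [(0, 3), (0, 65), (0, 70)]⟩) (.cons (.leaf ⟨true, 219, [(0, 3), (0, 66),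
    (0, 138), (0, 193)]⟩ ⟨false, 103, [(0, 3), (0, 65), (0, 70)]⟩) (.nil)))))))))) (.cons (.viol
    ⟨false, 70, [(0, 6), (0, 68), (64, 4)]⟩ ⟨false, 57, [(0, 9), (0, 17), (64, 24)]⟩ 1 (.cons
    (.leaf ⟨true, 182, [(0, 18), (0, 130), (0, 144)]⟩ ⟨false, 89, [(0, 16)]⟩) (.cons (.leaf ⟨true,
    235, [(0, 3), (0, 66), (0, 138), (0, 193)]⟩ ⟨false, 87, [(0, 19), (0, 65), (0, 70), (0, 84)]⟩)
    (.cons (.leaf ⟨true, 105, [(0, 64)]⟩ ⟨false, 222, [(0, 70), (0, 72), (0, 80)]⟩) (.cons (.leaf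
    ⟨true, 105, [(0, 64)]⟩ ⟨false, 222, [(0, 70), (0, 72), (0, 80)]⟩) (.cons (.leaf ⟨true, 182,
    [(0, 18), (0, 130), (0, 144)]⟩ ⟨false, 217, [(0, 16)]⟩) (.cons (.leaf ⟨true, 235, [(0, 3), (0,
    66), (0, 193)]⟩ ⟨false, 87, [(0, 19), (0, 65), (0, 70), (0, 84)]⟩) (.cons (.leaf ⟨true, 182,
    [(0, 18), (0, 130), (0, 144)]⟩ ⟨false, 89, [(0, 16)]⟩) (.cons (.leaf ⟨true, 235, [(0, 3), (0,
    66), (0, 170), (0, 193)]⟩ ⟨false, 87, [(0, 19), (0, 65), (0, 70), (0, 84)]⟩) (.nil))))))))))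
    (.cons (.viol ⟨false, 70, [(0, 6), (0, 68), (64, 4)]⟩ ⟨false, 57, [(0, 9), (0, 17), (64, 24)]⟩
    1 (.cons (.leaf ⟨true, 182, [(0, 34), (0, 36), (0, 134), (0, 160)]⟩ ⟨false, 105, [(0, 32)]⟩)
    (.cons (.exN ⟨true, 203, [(0, 3), (0, 10), (0, 66), (0, 201)]⟩ ⟨false, 127, [(0, 14), (0, 19),
    (0, 70), (0, 73)]⟩ 1 6 (.exN ⟨false, 239, [(0, 35), (0, 38), (0, 78), (0, 131), (0, 169), (0,
    225), (0, 228)]⟩ ⟨true, 178, [(0, 34), (0, 130), (0, 160)]⟩ 0 1 (.leaf ⟨true, 147, [(0, 128)]⟩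
    ⟨false, 236, [(0, 192)]⟩))) (.cons (.leaf ⟨true, 65, [(0, 64)]⟩ ⟨false, 254, [(0, 70), (0,
    72), (0, 80)]⟩) (.cons (.leaf ⟨true, 65, [(0, 64)]⟩ ⟨false, 254, [(0, 70), (0, 72), (0, 80)]⟩)
    (.cons (.leaf ⟨true, 182, [(0, 18), (0, 130), (0, 144)]⟩ ⟨false, 89, [(0, 16)]⟩) (.cons (.leaf
    ⟨false, 70, [(0, 6), (0, 66), (0, 68)]⟩ ⟨false, 185, [(0, 9), (0, 17)]⟩) (.cons (.leaf ⟨true,
    182, [(0, 18), (0, 134), (0, 144), (0, 162)]⟩ ⟨false, 89, [(0, 16)]⟩) (.cons (.exN ⟨true, 203,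
    [(0, 3), (0, 10), (0, 66), (0, 201)]⟩ ⟨false, 127, [(0, 14), (0, 19), (0, 70), (0, 73), (0,
    84)]⟩ 1 6 (.leaf ⟨true, 139, [(0, 11), (0, 129), (0, 130), (0, 136)]⟩ ⟨false, 244, [(0, 144),
    (0, 192)]⟩)) (.nil)))))))))) (.nil)))))

/-- a part of the certificate -/
def c3 : Tree :=
  .viol ⟨false, 38, [(0, 4)]⟩ ⟨false, 25, [(0, 9), (0, 17), (0, 24)]⟩ 1 (.cons (.viol ⟨true, 107,
    [(0, 3), (0, 10), (0, 73), (64, 9)]⟩ ⟨false, 31, [(0, 9), (0, 14), (0, 19)]⟩ 1 (.cons (.leaf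
    ⟨true, 251, [(0, 3), (0, 65), (0, 74), (0, 98), (0, 194)]⟩ ⟨false, 5, [(0, 1)]⟩) (.cons (.leaf
    ⟨true, 251, [(0, 11), (0, 72), (0, 81), (0, 210), (0, 226)]⟩ ⟨false, 93, [(0, 9), (0, 21), (0,
    28), (0, 76), (0, 81)]⟩) (.cons (.exN ⟨true, 235, [(0, 3), (0, 74), (0, 98), (0, 130), (0,
    193)]⟩ ⟨false, 151, [(0, 19), (0, 129), (0, 134), (0, 148)]⟩ 1 7 (.leaf ⟨true, 99, [(0, 64)]⟩
    ⟨false, 221, [(0, 81), (0, 137), (0, 149), (0, 156), (0, 204), (0, 212)]⟩)) (.cons (.exN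
    ⟨true, 203, [(0, 3), (0, 10), (0, 130), (0, 201)]⟩ ⟨false, 191, [(0, 14), (0, 19), (0, 134),
    (0, 137), (0, 149), (0, 156)]⟩ 1 7 (.exN ⟨false, 183, [(0, 33), (0, 129), (0, 164)]⟩ ⟨true,
    233, [(0, 33), (0, 104), (0, 160), (0, 193)]⟩ 0 1 (.leaf ⟨true, 233, [(0, 9), (0, 72), (0,
    97), (0, 168), (0, 193)]⟩ ⟨false, 150, [(0, 128)]⟩))) (.nil)))))) (.cons (.viol ⟨true, 107,
    [(0, 3), (0, 10), (0, 73), (64, 9)]⟩ ⟨false, 31, [(0, 9), (0, 14), (0, 19), (0, 28)]⟩ 1 (.cons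
    (.leaf ⟨true, 251, [(0, 3), (0, 34), (0, 130), (0, 225)]⟩ ⟨false, 167, [(0, 3), (0, 38), (0,
    133), (0, 134), (0, 161)]⟩) (.cons (.leaf ⟨true, 219, [(0, 3), (0, 74), (0, 130), (0, 193)]⟩
    ⟨false, 167, [(0, 3), (0, 129), (0, 134)]⟩) (.cons (.leaf ⟨true, 161, [(0, 128)]⟩ ⟨false, 222,
    [(0, 134), (0, 136), (0, 144)]⟩) (.cons (.leaf ⟨true, 129, [(0, 128)]⟩ ⟨false, 254, [(0, 134),
    (0, 136), (0, 144)]⟩) (.nil)))))) (.cons (.viol ⟨true, 107, [(0, 3), (0, 10), (0, 73), (64,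
    9)]⟩ ⟨false, 31, [(0, 9), (0, 14), (0, 19), (0, 28)]⟩ 1 (.cons (.leaf ⟨true, 251, [(0, 3), (0,
    106), (0, 130), (0, 193)]⟩ ⟨false, 135, [(0, 3), (0, 129), (0, 134)]⟩) (.cons (.leaf ⟨true,
    219, [(0, 3), (0, 130), (0, 193)]⟩ ⟨false, 167, [(0, 3), (0, 129), (0, 134)]⟩) (.cons (.leaf
    ⟨false, 166, [(0, 6), (0, 130), (0, 132)]⟩ ⟨false, 89, [(0, 9), (0, 17)]⟩) (.cons (.leaf
    ⟨true, 233, [(0, 40), (0, 136), (0, 160)]⟩ ⟨false, 190, [(0, 30), (0, 40), (0, 136), (0, 166),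
    (0, 176)]⟩) (.nil)))))) (.cons (.viol ⟨true, 107, [(0, 3), (0, 10), (0, 73), (64, 9)]⟩ ⟨false,
    31, [(0, 9), (0, 14), (0, 19), (0, 28)]⟩ 1 (.cons (.leaf ⟨true, 251, [(0, 3), (0, 34), (0,
    74), (0, 82), (0, 130), (0, 225)]⟩ ⟨false, 167, [(0, 3), (0, 38), (0, 133), (0, 134), (0,
    161)]⟩) (.cons (.leaf ⟨true, 219, [(0, 3), (0, 74), (0, 130), (0, 193)]⟩ ⟨false, 167, [(0, 3),
    (0, 129), (0, 134)]⟩) (.cons (.exN ⟨true, 235, [(0, 3), (0, 10), (0, 98), (0, 130), (0, 201)]⟩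
    ⟨false, 159, [(0, 14), (0, 19), (0, 134), (0, 137)]⟩ 1 7 (.leaf ⟨true, 233, [(0, 9), (0, 72),
    (0, 136), (0, 193)]⟩ ⟨false, 150, [(0, 128)]⟩)) (.cons (.leaf ⟨true, 233, [(0, 40), (0, 136),
    (0, 160)]⟩ ⟨false, 190, [(0, 30), (0, 40), (0, 136), (0, 166), (0, 176)]⟩) (.nil))))))
    (.nil)))))

/-- a part of the certificate -/
def c4 : Tree :=
  .split 1 62 (.leaf ⟨true, 22, [(0, 16)]⟩ ⟨false, 61, [(0, 17), (0, 20)]⟩) (.split 3 60 (.leaf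
    ⟨true, 22, [(0, 16)]⟩ ⟨false, 61, [(0, 17), (0, 20)]⟩) (.viol ⟨true, 43, [(0, 3), (0, 9), (0,
    10)]⟩ ⟨false, 31, [(0, 9), (0, 14), (0, 19), (0, 28)]⟩ 1 (.cons (.viol ⟨false, 102, [(0, 6),
    (0, 68), (64, 4)]⟩ ⟨false, 25, [(0, 9), (0, 17), (64, 24)]⟩ 1 (.cons (.leaf ⟨true, 251, [(0,
    11), (0, 136), (0, 145), (0, 161), (0, 178), (0, 194)]⟩ ⟨false, 157, [(0, 9), (0, 140), (0,
    145)]⟩) (.cons (.leaf ⟨true, 219, [(0, 3), (0, 129), (0, 138)]⟩ ⟨false, 53, [(0, 1)]⟩) (.cons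
    (.leaf ⟨true, 219, [(0, 3), (0, 66), (0, 193)]⟩ ⟨false, 103, [(0, 3), (0, 65), (0, 70)]⟩)
    (.cons (.leaf ⟨true, 251, [(0, 11), (0, 19), (0, 35), (0, 66), (0, 138), (0, 201), (0, 209),
    (0, 225)]⟩ ⟨false, 71, [(0, 3), (0, 65), (0, 70)]⟩) (.cons (.leaf ⟨true, 219, [(0, 3), (0,
    66), (0, 138), (0, 193)]⟩ ⟨false, 103, [(0, 3), (0, 65), (0, 70)]⟩) (.cons (.leaf ⟨true, 251,
    [(0, 11), (0, 19), (0, 35), (0, 66), (0, 138), (0, 178), (0, 201), (0, 209), (0, 225)]⟩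
    ⟨false, 71, [(0, 3), (0, 65), (0, 70)]⟩) (.cons (.leaf ⟨true, 219, [(0, 3), (0, 66), (0, 138),
    (0, 146), (0, 193)]⟩ ⟨false, 103, [(0, 3), (0, 65), (0, 70)]⟩) (.nil))))))))) (.cons (.viol
    ⟨false, 102, [(0, 6), (0, 68), (64, 4)]⟩ ⟨false, 25, [(0, 9), (0, 17), (64, 24)]⟩ 1 (.cons
    (.leaf ⟨true, 182, [(0, 18), (0, 144), (0, 162)]⟩ ⟨false, 89, [(0, 16)]⟩) (.cons (.leaf ⟨true,
    105, [(0, 40), (0, 72), (0, 96)]⟩ ⟨false, 254, [(0, 40), (0, 72), (0, 102), (0, 112)]⟩) (.cons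
    (.leaf ⟨true, 182, [(0, 22), (0, 132), (0, 144), (0, 162)]⟩ ⟨false, 221, [(0, 20), (0, 25),
    (0, 81), (0, 145), (0, 204)]⟩) (.cons (.leaf ⟨true, 182, [(0, 18), (0, 130), (0, 144)]⟩
    ⟨false, 89, [(0, 16)]⟩) (.cons (.leaf ⟨false, 102, [(0, 6), (0, 66), (0, 68)]⟩ ⟨false, 153,
    [(0, 9), (0, 17)]⟩) (.cons (.leaf ⟨true, 182, [(0, 18), (0, 130), (0, 144)]⟩ ⟨false, 89, [(0,
    16)]⟩) (.cons (.exN ⟨true, 235, [(0, 3), (0, 10), (0, 66), (0, 201)]⟩ ⟨false, 95, [(0, 14),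
    (0, 19), (0, 70), (0, 73), (0, 84)]⟩ 1 6 (.leaf ⟨true, 139, [(0, 11), (0, 129), (0, 130), (0,
    136)]⟩ ⟨false, 244, [(0, 144), (0, 192)]⟩)) (.nil))))))))) (.nil)))))

/-- a part of the certificate -/
def c5 : Tree :=
  .viol ⟨true, 43, [(0, 3), (0, 9), (0, 10)]⟩ ⟨false, 31, [(0, 9), (0, 14), (0, 19)]⟩ 1 (.cons
    (.viol ⟨false, 102, [(0, 6), (0, 68), (64, 4)]⟩ ⟨false, 25, [(0, 9), (0, 17), (64, 24)]⟩ 1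
    (.cons (.leaf ⟨true, 251, [(0, 11), (0, 129), (0, 136), (0, 178), (0, 194)]⟩ ⟨false, 157, [(0,
    9), (0, 140), (0, 145)]⟩) (.cons (.leaf ⟨true, 251, [(0, 11), (0, 136), (0, 145), (0, 193),
    (0, 194)]⟩ ⟨false, 157, [(0, 9), (0, 21), (0, 28), (0, 140), (0, 145)]⟩) (.cons (.leaf ⟨true,
    251, [(0, 3), (0, 66), (0, 193)]⟩ ⟨false, 71, [(0, 3), (0, 65), (0, 70)]⟩) (.cons (.leaf
    ⟨true, 251, [(0, 3), (0, 66), (0, 138), (0, 193)]⟩ ⟨false, 71, [(0, 3), (0, 65), (0, 70)]⟩)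
    (.cons (.leaf ⟨true, 251, [(0, 3), (0, 66), (0, 178), (0, 193)]⟩ ⟨false, 71, [(0, 3), (0, 65),
    (0, 70)]⟩) (.cons (.leaf ⟨true, 251, [(0, 3), (0, 66), (0, 138), (0, 193)]⟩ ⟨false, 71, [(0,
    3), (0, 65), (0, 70)]⟩) (.cons (.leaf ⟨true, 251, [(0, 3), (0, 66), (0, 146), (0, 193)]⟩
    ⟨false, 71, [(0, 3), (0, 65), (0, 70)]⟩) (.cons (.leaf ⟨true, 251, [(0, 3), (0, 66), (0, 138),
    (0, 193)]⟩ ⟨false, 71, [(0, 3), (0, 65), (0, 70)]⟩) (.nil)))))))))) (.cons (.viol ⟨false, 102,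
    [(0, 6), (0, 68), (64, 4)]⟩ ⟨false, 25, [(0, 9), (0, 17), (64, 24)]⟩ 1 (.cons (.leaf ⟨true,
    182, [(0, 22), (0, 132), (0, 144), (0, 162)]⟩ ⟨false, 221, [(0, 20), (0, 89), (0, 145), (0,
    204)]⟩) (.cons (.leaf ⟨true, 179, [(0, 50), (0, 145), (0, 146), (0, 160)]⟩ ⟨false, 254, [(0,
    50), (0, 56), (0, 78), (0, 88), (0, 112), (0, 146), (0, 152), (0, 168), (0, 208)]⟩) (.cons
    (.leaf ⟨true, 178, [(0, 18), (0, 144), (0, 162)]⟩ ⟨false, 221, [(0, 17), (0, 20)]⟩) (.cons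
    (.leaf ⟨true, 65, [(0, 64)]⟩ ⟨false, 254, [(0, 70), (0, 72), (0, 80)]⟩) (.cons (.leaf ⟨true,
    182, [(0, 18), (0, 130), (0, 144)]⟩ ⟨false, 89, [(0, 16)]⟩) (.cons (.leaf ⟨false, 102, [(0,
    6), (0, 66), (0, 68)]⟩ ⟨false, 153, [(0, 9), (0, 17)]⟩) (.cons (.leaf ⟨true, 182, [(0, 18),
    (0, 130), (0, 144)]⟩ ⟨false, 89, [(0, 16)]⟩) (.cons (.exN ⟨true, 235, [(0, 3), (0, 10), (0,
    66), (0, 201)]⟩ ⟨false, 95, [(0, 14), (0, 19), (0, 70), (0, 73), (0, 92)]⟩ 1 6 (.leaf ⟨true,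
    171, [(0, 11), (0, 129), (0, 130), (0, 136)]⟩ ⟨false, 212, [(0, 144), (0, 192)]⟩))
    (.nil)))))))))) (.nil)))

/-- a part of the certificate -/
def c6 : Tree :=
  .exU ⟨true, 44, [(0, 32)]⟩ ⟨false, 59, [(0, 26), (0, 40), (0, 48)]⟩ (.exU ⟨true, 62, [(0, 10),
    (0, 12), (0, 24), (0, 54)]⟩ ⟨false, 29, [(0, 12), (0, 20), (0, 25)]⟩ (.split 1 62 (.leaf
    ⟨true, 41, [(0, 9), (0, 33), (0, 40)]⟩ ⟨false, 63, [(0, 9), (0, 30), (0, 44), (0, 49)]⟩)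
    (.split 17 46 (.leaf ⟨true, 41, [(0, 9), (0, 33), (0, 40)]⟩ ⟨false, 63, [(0, 9), (0, 30), (0,
    44), (0, 49)]⟩) (.split 33 30 (.leaf ⟨true, 41, [(0, 9), (0, 33), (0, 40)]⟩ ⟨false, 63, [(0,
    9), (0, 30), (0, 44), (0, 49)]⟩) (.viol ⟨true, 11, [(0, 3), (0, 9), (0, 10)]⟩ ⟨false, 63, [(0,
    9), (0, 14), (0, 19), (0, 53), (0, 60)]⟩ 1 (.cons (.viol ⟨false, 70, [(0, 6), (0, 68), (64,
    4)]⟩ ⟨false, 57, [(0, 9), (0, 17), (64, 56)]⟩ 1 (.cons (.leaf ⟨true, 219, [(0, 3), (0, 66),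
    (0, 138), (0, 201), (0, 209)]⟩ ⟨false, 103, [(0, 3), (0, 65), (0, 70)]⟩) (.cons (.leaf ⟨true,
    219, [(0, 3), (0, 66), (0, 138), (0, 201), (0, 209)]⟩ ⟨false, 103, [(0, 3), (0, 65), (0,
    70)]⟩) (.cons (.leaf ⟨true, 219, [(0, 3), (0, 66), (0, 138), (0, 201), (0, 209)]⟩ ⟨false, 103,
    [(0, 3), (0, 65), (0, 70)]⟩) (.cons (.leaf ⟨true, 219, [(0, 3), (0, 66), (0, 138), (0, 201),
    (0, 209)]⟩ ⟨false, 103, [(0, 3), (0, 65), (0, 70)]⟩) (.cons (.leaf ⟨true, 254, [(0, 34), (0,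
    70), (0, 108), (0, 172), (0, 232), (0, 240)]⟩ ⟨false, 103, [(0, 35), (0, 38), (0, 67), (0,
    69), (0, 70), (0, 97), (0, 100)]⟩) (.cons (.leaf ⟨true, 254, [(0, 34), (0, 70), (0, 108), (0,
    232), (0, 240)]⟩ ⟨false, 231, [(0, 35), (0, 38), (0, 67), (0, 69), (0, 70), (0, 97), (0,
    100)]⟩) (.cons (.leaf ⟨true, 254, [(0, 34), (0, 70), (0, 108), (0, 138), (0, 150), (0, 232),
    (0, 240)]⟩ ⟨false, 103, [(0, 35), (0, 38), (0, 67), (0, 69), (0, 70), (0, 97), (0, 100)]⟩)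
    (.cons (.leaf ⟨true, 254, [(0, 34), (0, 44), (0, 70), (0, 150), (0, 232), (0, 240)]⟩ ⟨false,
    231, [(0, 35), (0, 38), (0, 70), (0, 97), (0, 100)]⟩) (.nil)))))))))) (.cons (.viol ⟨false,
    70, [(0, 6), (0, 68), (64, 4)]⟩ ⟨false, 57, [(0, 9), (0, 17), (64, 56)]⟩ 1 (.cons (.leaf
    ⟨true, 219, [(0, 3), (0, 66), (0, 138), (0, 201), (0, 209)]⟩ ⟨false, 103, [(0, 3), (0, 65),
    (0, 70)]⟩) (.cons (.leaf ⟨true, 219, [(0, 11), (0, 131), (0, 136), (0, 145)]⟩ ⟨false, 189,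
    [(0, 9), (0, 21), (0, 60), (0, 140), (0, 145)]⟩) (.cons (.leaf ⟨true, 219, [(0, 3), (0, 66),
    (0, 138), (0, 201), (0, 209)]⟩ ⟨false, 103, [(0, 3), (0, 65), (0, 70)]⟩) (.cons (.leaf ⟨true,
    219, [(0, 3), (0, 66), (0, 138), (0, 201), (0, 209)]⟩ ⟨false, 103, [(0, 3), (0, 65), (0,
    70)]⟩) (.cons (.leaf ⟨true, 219, [(0, 3), (0, 66), (0, 138), (0, 201), (0, 209)]⟩ ⟨false, 103,
    [(0, 3), (0, 65), (0, 70)]⟩) (.cons (.leaf ⟨true, 88, [(0, 64)]⟩ ⟨false, 231, [(0, 65), (0,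
    68)]⟩) (.cons (.leaf ⟨true, 219, [(0, 3), (0, 66), (0, 138), (0, 146), (0, 201), (0, 209)]⟩
    ⟨false, 103, [(0, 3), (0, 65), (0, 70)]⟩) (.cons (.leaf ⟨true, 219, [(0, 3), (0, 66), (0,
    138), (0, 146), (0, 201), (0, 209)]⟩ ⟨false, 103, [(0, 3), (0, 65), (0, 70)]⟩) (.nil))))))))))
    (.cons (.viol ⟨false, 70, [(0, 6), (0, 68), (64, 4)]⟩ ⟨false, 57, [(0, 9), (0, 17), (64, 56)]⟩
    1 (.cons (.leaf ⟨true, 182, [(0, 22), (0, 132), (0, 144), (0, 162)]⟩ ⟨false, 221, [(0, 20),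
    (0, 25), (0, 145), (0, 204)]⟩) (.cons (.leaf ⟨true, 150, [(0, 22), (0, 130), (0, 132), (0,
    144)]⟩ ⟨false, 255, [(0, 22), (0, 57), (0, 78), (0, 85), (0, 89), (0, 113), (0, 116), (0,
    147), (0, 153), (0, 204), (0, 209), (0, 212)]⟩) (.cons (.leaf ⟨true, 97, [(0, 64)]⟩ ⟨false,
    222, [(0, 70), (0, 72), (0, 80)]⟩) (.cons (.leaf ⟨true, 97, [(0, 64)]⟩ ⟨false, 222, [(0, 70),
    (0, 72), (0, 80)]⟩) (.cons (.leaf ⟨false, 185, [(0, 9), (0, 17), (0, 56)]⟩ ⟨false, 70, [(0,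
    6), (0, 68)]⟩) (.cons (.leaf ⟨true, 150, [(0, 18), (0, 130), (0, 144)]⟩ ⟨false, 251, [(0, 18),
    (0, 81), (0, 153), (0, 208)]⟩) (.cons (.exN ⟨true, 203, [(0, 3), (0, 10), (0, 66), (0, 201)]⟩
    ⟨false, 127, [(0, 14), (0, 19), (0, 70), (0, 73), (0, 85), (0, 116)]⟩ 1 6 (.exN ⟨false, 221,
    [(0, 20), (0, 81), (0, 145), (0, 204)]⟩ ⟨true, 182, [(0, 22), (0, 130), (0, 132), (0, 144)]⟩ 2
    3 (.leaf ⟨true, 171, [(0, 11), (0, 42), (0, 130), (0, 136), (0, 161)]⟩ ⟨false, 85, [(0, 17),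
    (0, 65)]⟩))) (.cons (.leaf ⟨true, 150, [(0, 18), (0, 130), (0, 144)]⟩ ⟨false, 251, [(0, 18),
    (0, 81), (0, 153), (0, 208)]⟩) (.nil)))))))))) (.cons (.viol ⟨false, 70, [(0, 6), (0, 68),
    (64, 4)]⟩ ⟨false, 57, [(0, 9), (0, 17), (64, 56)]⟩ 1 (.cons (.leaf ⟨true, 233, [(0, 33), (0,
    96), (0, 168), (0, 201)]⟩ ⟨false, 119, [(0, 33), (0, 65), (0, 100)]⟩) (.cons (.leaf ⟨true,
    105, [(0, 33), (0, 40), (0, 73), (0, 96)]⟩ ⟨false, 255, [(0, 41), (0, 51), (0, 73), (0, 78),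
    (0, 85), (0, 92), (0, 102), (0, 108), (0, 113), (0, 116), (0, 209)]⟩) (.cons (.leaf ⟨true,
    233, [(0, 33), (0, 40), (0, 96), (0, 201)]⟩ ⟨false, 119, [(0, 33), (0, 65), (0, 100)]⟩) (.cons
    (.leaf ⟨true, 65, [(0, 64)]⟩ ⟨false, 254, [(0, 70), (0, 72), (0, 80)]⟩) (.cons (.leaf ⟨true,
    233, [(0, 33), (0, 40), (0, 96), (0, 201)]⟩ ⟨false, 119, [(0, 33), (0, 65), (0, 100)]⟩) (.cons
    (.leaf ⟨true, 72, [(0, 64)]⟩ ⟨false, 247, [(0, 65), (0, 68)]⟩) (.cons (.leaf ⟨true, 233, [(0,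
    33), (0, 96), (0, 201)]⟩ ⟨false, 119, [(0, 33), (0, 65), (0, 100)]⟩) (.cons (.leaf ⟨true, 20,
    [(0, 16)]⟩ ⟨false, 251, [(0, 18), (0, 25), (0, 80)]⟩) (.nil)))))))))) (.nil))))))))))

/-- a part of the certificate -/
def c7 : Tree :=
  .split 22 41 (.viol ⟨true, 43, [(0, 3), (0, 9), (0, 10)]⟩ ⟨false, 31, [(0, 9), (0, 14), (0, 19),
    (0, 28)]⟩ 1 (.cons (.viol ⟨false, 70, [(0, 6), (0, 68), (64, 4)]⟩ ⟨false, 57, [(0, 9), (0,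
    17), (64, 56)]⟩ 1 (.cons (.leaf ⟨true, 251, [(0, 11), (0, 129), (0, 136), (0, 178), (0, 194)]⟩
    ⟨false, 157, [(0, 9), (0, 140), (0, 145)]⟩) (.cons (.leaf ⟨true, 219, [(0, 11), (0, 129), (0,
    136), (0, 194)]⟩ ⟨false, 189, [(0, 9), (0, 53), (0, 60), (0, 140), (0, 145)]⟩) (.cons (.leaf
    ⟨true, 251, [(0, 3), (0, 66), (0, 138), (0, 193)]⟩ ⟨false, 71, [(0, 3), (0, 65), (0, 70)]⟩)
    (.cons (.leaf ⟨true, 219, [(0, 3), (0, 66), (0, 138), (0, 193)]⟩ ⟨false, 103, [(0, 3), (0,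
    65), (0, 70)]⟩) (.cons (.leaf ⟨true, 219, [(0, 3), (0, 66), (0, 193)]⟩ ⟨false, 103, [(0, 3),
    (0, 65), (0, 70)]⟩) (.cons (.leaf ⟨true, 219, [(0, 3), (0, 66), (0, 193)]⟩ ⟨false, 103, [(0,
    3), (0, 65), (0, 70)]⟩) (.cons (.leaf ⟨true, 251, [(0, 3), (0, 66), (0, 170), (0, 193)]⟩
    ⟨false, 71, [(0, 3), (0, 65), (0, 70)]⟩) (.cons (.leaf ⟨true, 219, [(0, 3), (0, 66), (0, 138),
    (0, 193)]⟩ ⟨false, 103, [(0, 3), (0, 65), (0, 70)]⟩) (.nil)))))))))) (.cons (.viol ⟨false, 70,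
    [(0, 6), (0, 68), (64, 4)]⟩ ⟨false, 57, [(0, 9), (0, 17), (64, 56)]⟩ 1 (.cons (.leaf ⟨true,
    182, [(0, 18), (0, 144), (0, 162)]⟩ ⟨false, 89, [(0, 16)]⟩) (.cons (.exN ⟨true, 203, [(0, 3),
    (0, 66), (0, 138), (0, 193)]⟩ ⟨false, 119, [(0, 19), (0, 65), (0, 70), (0, 84)]⟩ 1 6 (.exN
    ⟨false, 239, [(0, 35), (0, 38), (0, 41), (0, 78), (0, 131), (0, 225), (0, 228)]⟩ ⟨true, 178,
    [(0, 34), (0, 130), (0, 160)]⟩ 0 1 (.leaf ⟨true, 145, [(0, 128)]⟩ ⟨false, 238, [(0, 192)]⟩)))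
    (.cons (.leaf ⟨true, 178, [(0, 18), (0, 130), (0, 144)]⟩ ⟨false, 221, [(0, 17), (0, 20)]⟩)
    (.cons (.leaf ⟨true, 65, [(0, 64)]⟩ ⟨false, 254, [(0, 70), (0, 72), (0, 80)]⟩) (.cons (.leaf
    ⟨true, 182, [(0, 18), (0, 130), (0, 144)]⟩ ⟨false, 89, [(0, 16)]⟩) (.cons (.leaf ⟨false, 185,
    [(0, 9), (0, 17), (0, 56)]⟩ ⟨false, 70, [(0, 6), (0, 68)]⟩) (.cons (.leaf ⟨true, 182, [(0,
    18), (0, 134), (0, 144), (0, 162)]⟩ ⟨false, 89, [(0, 16)]⟩) (.cons (.exN ⟨true, 203, [(0, 3),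
    (0, 66), (0, 193)]⟩ ⟨false, 119, [(0, 19), (0, 65), (0, 70), (0, 84)]⟩ 1 6 (.leaf ⟨true, 139,
    [(0, 11), (0, 129), (0, 130), (0, 136)]⟩ ⟨false, 244, [(0, 144), (0, 192)]⟩)) (.nil))))))))))
    (.nil)))) (.exN ⟨true, 62, [(0, 12), (0, 24), (0, 42), (0, 54)]⟩ ⟨false, 29, [(0, 12), (0,
    20), (0, 25)]⟩ 3 4 (.leaf ⟨true, 34, [(0, 2)]⟩ ⟨false, 31, [(0, 14), (0, 19), (0, 22), (0,
    25)]⟩))

/-- a part of the certificate -/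
def c8 : Tree :=
  .exU ⟨true, 35, [(0, 32)]⟩ ⟨false, 62, [(0, 26), (0, 34), (0, 48)]⟩ (.exU ⟨true, 59, [(0, 10),
    (0, 3), (0, 18), (0, 57)]⟩ ⟨false, 23, [(0, 3), (0, 17), (0, 22)]⟩ (.split 4 59 (.leaf ⟨true,
    38, [(0, 6), (0, 36), (0, 34)]⟩ ⟨false, 63, [(0, 6), (0, 27), (0, 35), (0, 52)]⟩) (.split 20
    43 (.leaf ⟨true, 38, [(0, 6), (0, 36), (0, 34)]⟩ ⟨false, 63, [(0, 6), (0, 27), (0, 35), (0,
    52)]⟩) (.split 36 27 (.leaf ⟨true, 38, [(0, 6), (0, 36), (0, 34)]⟩ ⟨false, 63, [(0, 6), (0,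
    27), (0, 35), (0, 52)]⟩) (.viol ⟨true, 14, [(0, 12), (0, 6), (0, 10)]⟩ ⟨false, 63, [(0, 6),
    (0, 11), (0, 28), (0, 53), (0, 51)]⟩ 3 (.cons (.viol ⟨false, 73, [(0, 9), (0, 65), (64, 1)]⟩
    ⟨false, 54, [(0, 6), (0, 20), (64, 50)]⟩ 3 (.cons (.leaf ⟨true, 251, [(0, 40), (0, 73), (0,
    99), (0, 163), (0, 226), (0, 240)]⟩ ⟨false, 109, [(0, 44), (0, 41), (0, 76), (0, 69), (0, 73),
    (0, 100), (0, 97)]⟩) (.cons (.leaf ⟨true, 251, [(0, 40), (0, 73), (0, 99), (0, 226), (0,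
    240)]⟩ ⟨false, 237, [(0, 44), (0, 41), (0, 76), (0, 69), (0, 73), (0, 100), (0, 97)]⟩) (.cons
    (.leaf ⟨true, 222, [(0, 12), (0, 72), (0, 138), (0, 198), (0, 212)]⟩ ⟨false, 109, [(0, 12),
    (0, 68), (0, 73)]⟩) (.cons (.leaf ⟨true, 222, [(0, 12), (0, 72), (0, 138), (0, 198), (0,
    212)]⟩ ⟨false, 109, [(0, 12), (0, 68), (0, 73)]⟩) (.cons (.leaf ⟨true, 222, [(0, 12), (0, 72),
    (0, 138), (0, 198), (0, 212)]⟩ ⟨false, 109, [(0, 12), (0, 68), (0, 73)]⟩) (.cons (.leaf ⟨true,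
    222, [(0, 12), (0, 72), (0, 138), (0, 198), (0, 212)]⟩ ⟨false, 109, [(0, 12), (0, 68), (0,
    73)]⟩) (.cons (.leaf ⟨true, 251, [(0, 40), (0, 73), (0, 99), (0, 138), (0, 153), (0, 226), (0,
    240)]⟩ ⟨false, 109, [(0, 44), (0, 41), (0, 76), (0, 69), (0, 73), (0, 100), (0, 97)]⟩) (.cons
    (.leaf ⟨true, 251, [(0, 40), (0, 35), (0, 73), (0, 153), (0, 226), (0, 240)]⟩ ⟨false, 237,
    [(0, 44), (0, 41), (0, 73), (0, 100), (0, 97)]⟩) (.nil)))))))))) (.cons (.viol ⟨false, 73,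
    [(0, 9), (0, 65), (64, 1)]⟩ ⟨false, 54, [(0, 6), (0, 20), (64, 50)]⟩ 3 (.cons (.leaf ⟨true,
    222, [(0, 12), (0, 72), (0, 138), (0, 198), (0, 212)]⟩ ⟨false, 109, [(0, 12), (0, 68), (0,
    73)]⟩) (.cons (.leaf ⟨true, 82, [(0, 64)]⟩ ⟨false, 237, [(0, 68), (0, 65)]⟩) (.cons (.leaf
    ⟨true, 222, [(0, 12), (0, 72), (0, 138), (0, 198), (0, 212)]⟩ ⟨false, 109, [(0, 12), (0, 68),
    (0, 73)]⟩) (.cons (.leaf ⟨true, 222, [(0, 14), (0, 140), (0, 130), (0, 148)]⟩ ⟨false, 183,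
    [(0, 6), (0, 21), (0, 51), (0, 131), (0, 148)]⟩) (.cons (.leaf ⟨true, 222, [(0, 12), (0, 72),
    (0, 138), (0, 198), (0, 212)]⟩ ⟨false, 109, [(0, 12), (0, 68), (0, 73)]⟩) (.cons (.leaf ⟨true,
    222, [(0, 12), (0, 72), (0, 138), (0, 198), (0, 212)]⟩ ⟨false, 109, [(0, 12), (0, 68), (0,
    73)]⟩) (.cons (.leaf ⟨true, 222, [(0, 12), (0, 72), (0, 138), (0, 152), (0, 198), (0, 212)]⟩
    ⟨false, 109, [(0, 12), (0, 68), (0, 73)]⟩) (.cons (.leaf ⟨true, 222, [(0, 12), (0, 72), (0,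
    138), (0, 152), (0, 198), (0, 212)]⟩ ⟨false, 109, [(0, 12), (0, 68), (0, 73)]⟩)
    (.nil)))))))))) (.cons (.viol ⟨false, 73, [(0, 9), (0, 65), (64, 1)]⟩ ⟨false, 54, [(0, 6), (0,
    20), (64, 50)]⟩ 3 (.cons (.leaf ⟨false, 182, [(0, 6), (0, 20), (0, 50)]⟩ ⟨false, 73, [(0, 9),
    (0, 65)]⟩) (.cons (.leaf ⟨true, 153, [(0, 24), (0, 136), (0, 144)]⟩ ⟨false, 254, [(0, 24), (0,
    84), (0, 150), (0, 208)]⟩) (.cons (.leaf ⟨true, 185, [(0, 25), (0, 129), (0, 144), (0, 168)]⟩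
    ⟨false, 215, [(0, 17), (0, 22), (0, 148), (0, 195)]⟩) (.cons (.leaf ⟨true, 153, [(0, 25), (0,
    136), (0, 129), (0, 144)]⟩ ⟨false, 255, [(0, 25), (0, 54), (0, 75), (0, 85), (0, 86), (0,
    116), (0, 113), (0, 156), (0, 150), (0, 195), (0, 212), (0, 209)]⟩) (.cons (.leaf ⟨true, 100,
    [(0, 64)]⟩ ⟨false, 219, [(0, 73), (0, 66), (0, 80)]⟩) (.cons (.leaf ⟨true, 100, [(0, 64)]⟩
    ⟨false, 219, [(0, 73), (0, 66), (0, 80)]⟩) (.cons (.exN ⟨true, 206, [(0, 12), (0, 10), (0,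
    72), (0, 198)]⟩ ⟨false, 127, [(0, 11), (0, 28), (0, 73), (0, 70), (0, 85), (0, 113)]⟩ 3 6
    (.exN ⟨false, 215, [(0, 17), (0, 84), (0, 148), (0, 195)]⟩ ⟨true, 185, [(0, 25), (0, 136), (0,
    129), (0, 144)]⟩ 0 1 (.leaf ⟨true, 174, [(0, 14), (0, 42), (0, 136), (0, 130), (0, 164)]⟩
    ⟨false, 85, [(0, 20), (0, 68)]⟩))) (.cons (.leaf ⟨true, 153, [(0, 24), (0, 136), (0, 144)]⟩
    ⟨false, 254, [(0, 24), (0, 84), (0, 150), (0, 208)]⟩) (.nil)))))))))) (.cons (.viol ⟨false,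
    73, [(0, 9), (0, 65), (64, 1)]⟩ ⟨false, 54, [(0, 6), (0, 20), (64, 50)]⟩ 3 (.cons (.leaf
    ⟨true, 230, [(0, 36), (0, 34), (0, 96), (0, 198)]⟩ ⟨false, 125, [(0, 36), (0, 68), (0, 97)]⟩)
    (.cons (.leaf ⟨true, 66, [(0, 64)]⟩ ⟨false, 253, [(0, 68), (0, 65)]⟩) (.cons (.leaf ⟨true,
    230, [(0, 36), (0, 96), (0, 162), (0, 198)]⟩ ⟨false, 125, [(0, 36), (0, 68), (0, 97)]⟩) (.cons
    (.leaf ⟨true, 102, [(0, 36), (0, 34), (0, 70), (0, 96)]⟩ ⟨false, 255, [(0, 38), (0, 60), (0,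
    70), (0, 75), (0, 85), (0, 83), (0, 105), (0, 99), (0, 116), (0, 113), (0, 212)]⟩) (.cons
    (.leaf ⟨true, 230, [(0, 36), (0, 34), (0, 96), (0, 198)]⟩ ⟨false, 125, [(0, 36), (0, 68), (0,
    97)]⟩) (.cons (.leaf ⟨true, 68, [(0, 64)]⟩ ⟨false, 251, [(0, 73), (0, 66), (0, 80)]⟩) (.cons
    (.leaf ⟨true, 230, [(0, 36), (0, 96), (0, 198)]⟩ ⟨false, 125, [(0, 36), (0, 68), (0, 97)]⟩)
    (.cons (.leaf ⟨true, 17, [(0, 16)]⟩ ⟨false, 254, [(0, 24), (0, 22), (0, 80)]⟩) (.nil))))))))))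
    (.nil))))))))))

/-- a part of the certificate -/
def c9 : Tree :=
  .exN ⟨false, 63, [(0, 6), (0, 19), (0, 35), (0, 52)]⟩ ⟨true, 38, [(0, 6), (0, 36), (0, 34)]⟩ 2 3
    (.viol ⟨true, 14, [(0, 12), (0, 6), (0, 10)]⟩ ⟨false, 63, [(0, 6), (0, 11), (0, 28), (0, 19),
    (0, 53)]⟩ 3 (.cons (.viol ⟨false, 105, [(0, 9), (0, 65), (64, 1)]⟩ ⟨false, 22, [(0, 6), (0,
    20), (64, 18)]⟩ 3 (.cons (.leaf ⟨true, 254, [(0, 12), (0, 72), (0, 168), (0, 196)]⟩ ⟨false,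
    77, [(0, 12), (0, 68), (0, 73)]⟩) (.cons (.leaf ⟨true, 254, [(0, 14), (0, 60), (0, 134), (0,
    138), (0, 148), (0, 162), (0, 200)]⟩ ⟨false, 151, [(0, 6), (0, 21), (0, 19), (0, 131), (0,
    148)]⟩) (.cons (.leaf ⟨true, 254, [(0, 12), (0, 72), (0, 138), (0, 196)]⟩ ⟨false, 77, [(0,
    12), (0, 68), (0, 73)]⟩) (.cons (.leaf ⟨true, 254, [(0, 12), (0, 72), (0, 138), (0, 152), (0,
    196)]⟩ ⟨false, 77, [(0, 12), (0, 68), (0, 73)]⟩) (.nil)))))) (.cons (.viol ⟨false, 105, [(0,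
    9), (0, 65), (64, 1)]⟩ ⟨false, 22, [(0, 6), (0, 20), (64, 18)]⟩ 3 (.cons (.leaf ⟨true, 222,
    [(0, 12), (0, 72), (0, 138), (0, 196)]⟩ ⟨false, 109, [(0, 12), (0, 68), (0, 73)]⟩) (.cons
    (.leaf ⟨true, 188, [(0, 40), (0, 136), (0, 160)]⟩ ⟨false, 235, [(0, 41), (0, 75), (0, 136),
    (0, 162), (0, 193), (0, 224)]⟩) (.cons (.leaf ⟨true, 222, [(0, 12), (0, 72), (0, 138), (0,
    196)]⟩ ⟨false, 109, [(0, 12), (0, 68), (0, 73)]⟩) (.cons (.leaf ⟨true, 222, [(0, 12), (0, 72),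
    (0, 138), (0, 152), (0, 196)]⟩ ⟨false, 109, [(0, 12), (0, 68), (0, 73)]⟩) (.nil)))))) (.cons
    (.viol ⟨false, 105, [(0, 9), (0, 65), (64, 1)]⟩ ⟨false, 22, [(0, 6), (0, 20), (64, 18)]⟩ 3
    (.cons (.leaf ⟨false, 105, [(0, 9), (0, 72), (0, 65)]⟩ ⟨false, 150, [(0, 6), (0, 20)]⟩) (.cons
    (.exN ⟨true, 238, [(0, 12), (0, 72), (0, 170), (0, 196)]⟩ ⟨false, 93, [(0, 28), (0, 68), (0,
    73)]⟩ 3 6 (.leaf ⟨true, 188, [(0, 44), (0, 132), (0, 136), (0, 160)]⟩ ⟨false, 203, [(0, 136),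
    (0, 192)]⟩)) (.cons (.leaf ⟨true, 100, [(0, 64)]⟩ ⟨false, 219, [(0, 73), (0, 66), (0, 80)]⟩)
    (.cons (.exN ⟨true, 206, [(0, 12), (0, 10), (0, 72), (0, 198)]⟩ ⟨false, 127, [(0, 11), (0,
    28), (0, 73), (0, 70), (0, 117)]⟩ 3 6 (.leaf ⟨true, 174, [(0, 14), (0, 44), (0, 132), (0,
    136), (0, 162)]⟩ ⟨false, 209, [(0, 144), (0, 192)]⟩)) (.nil)))))) (.cons (.viol ⟨false, 105,
    [(0, 9), (0, 65), (64, 1)]⟩ ⟨false, 22, [(0, 6), (0, 20), (64, 18)]⟩ 3 (.cons (.leaf ⟨true,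
    230, [(0, 34), (0, 96), (0, 164), (0, 198)]⟩ ⟨false, 123, [(0, 34), (0, 66), (0, 105), (0,
    112)]⟩) (.cons (.leaf ⟨true, 188, [(0, 56), (0, 136), (0, 148), (0, 160)]⟩ ⟨false, 251, [(0,
    57), (0, 75), (0, 82), (0, 113), (0, 152), (0, 146), (0, 162), (0, 195), (0, 208)]⟩) (.cons
    (.leaf ⟨true, 230, [(0, 96), (0, 164), (0, 162), (0, 192)]⟩ ⟨false, 251, [(0, 66), (0, 105),
    (0, 112), (0, 162), (0, 208)]⟩) (.cons (.leaf ⟨true, 230, [(0, 34), (0, 96), (0, 164), (0,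
    198)]⟩ ⟨false, 123, [(0, 34), (0, 66), (0, 105), (0, 112)]⟩) (.nil)))))) (.nil))))))

/-- a part of the certificate -/
def c10 : Tree :=
  .viol ⟨false, 41, [(0, 1)]⟩ ⟨false, 22, [(0, 6), (0, 20), (0, 18)]⟩ 3 (.cons (.viol ⟨true, 110,
    [(0, 12), (0, 10), (0, 70), (64, 6)]⟩ ⟨false, 31, [(0, 6), (0, 11), (0, 28), (0, 19)]⟩ 3
    (.cons (.leaf ⟨true, 254, [(0, 12), (0, 106), (0, 136), (0, 196)]⟩ ⟨false, 141, [(0, 12), (0,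
    132), (0, 137)]⟩) (.cons (.leaf ⟨true, 222, [(0, 12), (0, 136), (0, 196)]⟩ ⟨false, 173, [(0,
    12), (0, 132), (0, 137)]⟩) (.cons (.leaf ⟨false, 169, [(0, 9), (0, 136), (0, 129)]⟩ ⟨false,
    86, [(0, 6), (0, 20)]⟩) (.cons (.leaf ⟨true, 230, [(0, 34), (0, 130), (0, 160)]⟩ ⟨false, 187,
    [(0, 27), (0, 34), (0, 130), (0, 169), (0, 176)]⟩) (.nil)))))) (.cons (.viol ⟨true, 110, [(0,
    12), (0, 10), (0, 70), (64, 6)]⟩ ⟨false, 31, [(0, 6), (0, 11), (0, 28)]⟩ 3 (.cons (.leaf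
    ⟨true, 254, [(0, 12), (0, 68), (0, 74), (0, 104), (0, 200)]⟩ ⟨false, 5, [(0, 4)]⟩) (.cons
    (.leaf ⟨true, 254, [(0, 14), (0, 66), (0, 84), (0, 216), (0, 232)]⟩ ⟨false, 87, [(0, 6), (0,
    21), (0, 19), (0, 67), (0, 84)]⟩) (.cons (.exN ⟨true, 238, [(0, 12), (0, 74), (0, 104), (0,
    136), (0, 196)]⟩ ⟨false, 157, [(0, 28), (0, 132), (0, 137), (0, 145)]⟩ 3 7 (.leaf ⟨true, 108,
    [(0, 64)]⟩ ⟨false, 215, [(0, 84), (0, 134), (0, 149), (0, 147), (0, 195), (0, 209)]⟩)) (.cons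
    (.exN ⟨true, 206, [(0, 12), (0, 10), (0, 136), (0, 198)]⟩ ⟨false, 191, [(0, 11), (0, 28), (0,
    137), (0, 134), (0, 149), (0, 147)]⟩ 3 7 (.exN ⟨false, 189, [(0, 36), (0, 132), (0, 161)]⟩
    ⟨true, 230, [(0, 36), (0, 98), (0, 160), (0, 196)]⟩ 2 3 (.leaf ⟨true, 230, [(0, 6), (0, 66),
    (0, 100), (0, 162), (0, 196)]⟩ ⟨false, 153, [(0, 128)]⟩))) (.nil)))))) (.cons (.viol ⟨true,
    110, [(0, 12), (0, 10), (0, 70), (64, 6)]⟩ ⟨false, 31, [(0, 6), (0, 11), (0, 28), (0, 19)]⟩ 3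
    (.cons (.leaf ⟨true, 254, [(0, 12), (0, 40), (0, 136), (0, 228)]⟩ ⟨false, 173, [(0, 12), (0,
    41), (0, 133), (0, 137), (0, 164)]⟩) (.cons (.leaf ⟨true, 222, [(0, 12), (0, 74), (0, 136),
    (0, 196)]⟩ ⟨false, 173, [(0, 12), (0, 132), (0, 137)]⟩) (.cons (.leaf ⟨true, 164, [(0, 128)]⟩
    ⟨false, 219, [(0, 137), (0, 130), (0, 144)]⟩) (.cons (.leaf ⟨true, 132, [(0, 128)]⟩ ⟨false,
    251, [(0, 137), (0, 130), (0, 144)]⟩) (.nil)))))) (.cons (.viol ⟨true, 110, [(0, 12), (0, 10),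
    (0, 70), (64, 6)]⟩ ⟨false, 31, [(0, 6), (0, 11), (0, 28), (0, 19)]⟩ 3 (.cons (.leaf ⟨true,
    254, [(0, 12), (0, 40), (0, 74), (0, 88), (0, 136), (0, 228)]⟩ ⟨false, 173, [(0, 12), (0, 41),
    (0, 133), (0, 137), (0, 164)]⟩) (.cons (.leaf ⟨true, 222, [(0, 12), (0, 74), (0, 136), (0,
    196)]⟩ ⟨false, 173, [(0, 12), (0, 132), (0, 137)]⟩) (.cons (.exN ⟨true, 238, [(0, 12), (0,
    10), (0, 104), (0, 136), (0, 198)]⟩ ⟨false, 159, [(0, 11), (0, 28), (0, 137), (0, 134)]⟩ 3 7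
    (.leaf ⟨true, 230, [(0, 6), (0, 66), (0, 130), (0, 196)]⟩ ⟨false, 153, [(0, 128)]⟩)) (.cons
    (.leaf ⟨true, 230, [(0, 34), (0, 130), (0, 160)]⟩ ⟨false, 187, [(0, 27), (0, 34), (0, 130),
    (0, 169), (0, 176)]⟩) (.nil)))))) (.nil)))))

/-- a part of the certificate -/
def c11 : Tree :=
  .viol ⟨true, 14, [(0, 12), (0, 6), (0, 10)]⟩ ⟨false, 63, [(0, 6), (0, 11), (0, 28), (0, 19)]⟩ 3
    (.cons (.viol ⟨false, 73, [(0, 9), (0, 65), (64, 1)]⟩ ⟨false, 54, [(0, 6), (0, 20), (64, 18)]⟩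
    3 (.cons (.leaf ⟨true, 249, [(0, 24), (0, 144)]⟩ ⟨false, 150, [(0, 16)]⟩) (.cons (.leaf ⟨true,
    254, [(0, 12), (0, 72), (0, 170), (0, 196)]⟩ ⟨false, 77, [(0, 12), (0, 68), (0, 73)]⟩) (.cons
    (.leaf ⟨true, 249, [(0, 40), (0, 33), (0, 160), (0, 201)]⟩ ⟨false, 38, [(0, 32)]⟩) (.cons
    (.leaf ⟨true, 222, [(0, 14), (0, 132), (0, 130), (0, 200)]⟩ ⟨false, 167, [(0, 6), (0, 37), (0,
    132), (0, 131)]⟩) (.cons (.leaf ⟨true, 236, [(0, 44), (0, 132), (0, 160), (0, 200)]⟩ ⟨false,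
    183, [(0, 21), (0, 22), (0, 19), (0, 38), (0, 52), (0, 134), (0, 148), (0, 163), (0, 177)]⟩)
    (.cons (.leaf ⟨true, 254, [(0, 12), (0, 72), (0, 170), (0, 196)]⟩ ⟨false, 77, [(0, 12), (0,
    68), (0, 73)]⟩) (.cons (.leaf ⟨true, 249, [(0, 24), (0, 144), (0, 168), (0, 201)]⟩ ⟨false, 22,
    [(0, 16)]⟩) (.cons (.leaf ⟨true, 254, [(0, 12), (0, 72), (0, 168), (0, 196)]⟩ ⟨false, 77, [(0,
    12), (0, 68), (0, 73)]⟩) (.nil)))))))))) (.cons (.viol ⟨false, 73, [(0, 9), (0, 65), (64, 1)]⟩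
    ⟨false, 54, [(0, 6), (0, 20), (64, 18)]⟩ 3 (.cons (.leaf ⟨true, 222, [(0, 12), (0, 10), (0,
    72), (0, 198)]⟩ ⟨false, 111, [(0, 12), (0, 11), (0, 73), (0, 70), (0, 101)]⟩) (.cons (.leaf
    ⟨true, 222, [(0, 12), (0, 72), (0, 196)]⟩ ⟨false, 109, [(0, 12), (0, 68), (0, 73)]⟩) (.cons
    (.leaf ⟨true, 185, [(0, 40), (0, 33), (0, 137), (0, 160)]⟩ ⟨false, 102, [(0, 32)]⟩) (.cons
    (.leaf ⟨true, 222, [(0, 14), (0, 130), (0, 148)]⟩ ⟨false, 183, [(0, 6), (0, 21), (0, 19), (0,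
    131), (0, 148)]⟩) (.cons (.leaf ⟨true, 222, [(0, 12), (0, 72), (0, 138), (0, 196)]⟩ ⟨false,
    109, [(0, 12), (0, 68), (0, 73)]⟩) (.cons (.leaf ⟨true, 222, [(0, 12), (0, 72), (0, 138), (0,
    196)]⟩ ⟨false, 109, [(0, 12), (0, 68), (0, 73)]⟩) (.cons (.leaf ⟨true, 222, [(0, 12), (0, 72),
    (0, 138), (0, 196)]⟩ ⟨false, 109, [(0, 12), (0, 68), (0, 73)]⟩) (.cons (.leaf ⟨true, 222, [(0,
    12), (0, 72), (0, 138), (0, 196)]⟩ ⟨false, 109, [(0, 12), (0, 68), (0, 73)]⟩) (.nil))))))))))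
    (.cons (.viol ⟨false, 73, [(0, 9), (0, 65), (64, 1)]⟩ ⟨false, 54, [(0, 6), (0, 20), (64, 18)]⟩
    3 (.cons (.leaf ⟨true, 185, [(0, 24), (0, 136), (0, 144)]⟩ ⟨false, 214, [(0, 16)]⟩) (.cons
    (.leaf ⟨true, 238, [(0, 12), (0, 72), (0, 196)]⟩ ⟨false, 93, [(0, 28), (0, 68), (0, 73), (0,
    81)]⟩) (.cons (.leaf ⟨true, 185, [(0, 24), (0, 136), (0, 144)]⟩ ⟨false, 86, [(0, 16)]⟩) (.cons
    (.leaf ⟨true, 238, [(0, 12), (0, 72), (0, 138), (0, 196)]⟩ ⟨false, 93, [(0, 28), (0, 68), (0,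
    73), (0, 81)]⟩) (.cons (.leaf ⟨true, 102, [(0, 64)]⟩ ⟨false, 219, [(0, 73), (0, 66), (0,
    80)]⟩) (.cons (.leaf ⟨true, 102, [(0, 64)]⟩ ⟨false, 219, [(0, 73), (0, 66), (0, 80)]⟩) (.cons
    (.leaf ⟨true, 185, [(0, 24), (0, 136), (0, 144)]⟩ ⟨false, 86, [(0, 16)]⟩) (.cons (.leaf ⟨true,
    238, [(0, 12), (0, 72), (0, 170), (0, 196)]⟩ ⟨false, 93, [(0, 28), (0, 68), (0, 73), (0,
    81)]⟩) (.nil)))))))))) (.cons (.viol ⟨false, 73, [(0, 9), (0, 65), (64, 1)]⟩ ⟨false, 54, [(0,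
    6), (0, 20), (64, 18)]⟩ 3 (.cons (.leaf ⟨true, 185, [(0, 24), (0, 136), (0, 144)]⟩ ⟨false, 86,
    [(0, 16)]⟩) (.cons (.leaf ⟨false, 73, [(0, 9), (0, 72), (0, 65)]⟩ ⟨false, 182, [(0, 6), (0,
    20)]⟩) (.cons (.leaf ⟨true, 185, [(0, 40), (0, 33), (0, 137), (0, 160)]⟩ ⟨false, 102, [(0,
    32)]⟩) (.cons (.exN ⟨true, 206, [(0, 12), (0, 10), (0, 72), (0, 198)]⟩ ⟨false, 127, [(0, 11),
    (0, 28), (0, 73), (0, 70)]⟩ 3 6 (.exN ⟨false, 239, [(0, 44), (0, 41), (0, 75), (0, 140), (0,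
    166), (0, 228), (0, 225)]⟩ ⟨true, 184, [(0, 40), (0, 136), (0, 160)]⟩ 2 3 (.leaf ⟨true, 156,
    [(0, 128)]⟩ ⟨false, 227, [(0, 192)]⟩))) (.cons (.leaf ⟨true, 68, [(0, 64)]⟩ ⟨false, 251, [(0,
    73), (0, 66), (0, 80)]⟩) (.cons (.leaf ⟨true, 68, [(0, 64)]⟩ ⟨false, 251, [(0, 73), (0, 66),
    (0, 80)]⟩) (.cons (.leaf ⟨true, 185, [(0, 24), (0, 137), (0, 144), (0, 168)]⟩ ⟨false, 86, [(0,
    16)]⟩) (.cons (.exN ⟨true, 206, [(0, 12), (0, 10), (0, 72), (0, 198)]⟩ ⟨false, 127, [(0, 11),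
    (0, 28), (0, 73), (0, 70), (0, 81)]⟩ 3 6 (.leaf ⟨true, 142, [(0, 14), (0, 132), (0, 136), (0,
    130)]⟩ ⟨false, 241, [(0, 144), (0, 192)]⟩)) (.nil)))))))))) (.nil)))))

/-- a part of the certificate -/
def c12 : Tree :=
  .split 4 59 (.leaf ⟨true, 25, [(0, 16)]⟩ ⟨false, 55, [(0, 20), (0, 17)]⟩) (.split 12 51 (.leaf
    ⟨true, 25, [(0, 16)]⟩ ⟨false, 55, [(0, 20), (0, 17)]⟩) (.viol ⟨true, 46, [(0, 12), (0, 6), (0,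
    10)]⟩ ⟨false, 31, [(0, 6), (0, 11), (0, 28), (0, 19)]⟩ 3 (.cons (.viol ⟨false, 105, [(0, 9),
    (0, 65), (64, 1)]⟩ ⟨false, 22, [(0, 6), (0, 20), (64, 18)]⟩ 3 (.cons (.leaf ⟨true, 254, [(0,
    14), (0, 28), (0, 44), (0, 72), (0, 138), (0, 198), (0, 212), (0, 228)]⟩ ⟨false, 77, [(0, 12),
    (0, 68), (0, 73)]⟩) (.cons (.leaf ⟨true, 222, [(0, 12), (0, 72), (0, 138), (0, 196)]⟩ ⟨false,
    109, [(0, 12), (0, 68), (0, 73)]⟩) (.cons (.leaf ⟨true, 254, [(0, 14), (0, 130), (0, 148), (0,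
    164), (0, 184), (0, 200)]⟩ ⟨false, 151, [(0, 6), (0, 131), (0, 148)]⟩) (.cons (.leaf ⟨true,
    222, [(0, 12), (0, 132), (0, 138)]⟩ ⟨false, 53, [(0, 4)]⟩) (.cons (.leaf ⟨true, 222, [(0, 12),
    (0, 72), (0, 196)]⟩ ⟨false, 109, [(0, 12), (0, 68), (0, 73)]⟩) (.cons (.leaf ⟨true, 254, [(0,
    14), (0, 28), (0, 44), (0, 72), (0, 138), (0, 184), (0, 198), (0, 212), (0, 228)]⟩ ⟨false, 77,
    [(0, 12), (0, 68), (0, 73)]⟩) (.cons (.leaf ⟨true, 222, [(0, 12), (0, 72), (0, 138), (0, 152),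
    (0, 196)]⟩ ⟨false, 109, [(0, 12), (0, 68), (0, 73)]⟩) (.nil))))))))) (.cons (.viol ⟨false,
    105, [(0, 9), (0, 65), (64, 1)]⟩ ⟨false, 22, [(0, 6), (0, 20), (64, 18)]⟩ 3 (.cons (.leaf
    ⟨true, 185, [(0, 24), (0, 136), (0, 144)]⟩ ⟨false, 86, [(0, 16)]⟩) (.cons (.leaf ⟨false, 105,
    [(0, 9), (0, 72), (0, 65)]⟩ ⟨false, 150, [(0, 6), (0, 20)]⟩) (.cons (.leaf ⟨true, 185, [(0,
    24), (0, 144), (0, 168)]⟩ ⟨false, 86, [(0, 16)]⟩) (.cons (.leaf ⟨true, 102, [(0, 34), (0, 66),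
    (0, 96)]⟩ ⟨false, 251, [(0, 34), (0, 66), (0, 105), (0, 112)]⟩) (.cons (.leaf ⟨true, 185, [(0,
    25), (0, 129), (0, 144), (0, 168)]⟩ ⟨false, 215, [(0, 17), (0, 22), (0, 84), (0, 148), (0,
    195)]⟩) (.cons (.leaf ⟨true, 185, [(0, 24), (0, 136), (0, 144)]⟩ ⟨false, 86, [(0, 16)]⟩)
    (.cons (.exN ⟨true, 238, [(0, 12), (0, 10), (0, 72), (0, 198)]⟩ ⟨false, 95, [(0, 11), (0, 28),
    (0, 73), (0, 70), (0, 81)]⟩ 3 6 (.leaf ⟨true, 142, [(0, 14), (0, 132), (0, 136), (0, 130)]⟩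
    ⟨false, 241, [(0, 144), (0, 192)]⟩)) (.nil))))))))) (.nil)))))

/-- a part of the certificate -/
def c13 : Tree :=
  .split 25 38 (.viol ⟨true, 46, [(0, 12), (0, 6), (0, 10)]⟩ ⟨false, 31, [(0, 6), (0, 11), (0,
    28), (0, 19)]⟩ 3 (.cons (.viol ⟨false, 73, [(0, 9), (0, 65), (64, 1)]⟩ ⟨false, 54, [(0, 6),
    (0, 20), (64, 50)]⟩ 3 (.cons (.leaf ⟨true, 222, [(0, 12), (0, 72), (0, 196)]⟩ ⟨false, 109,
    [(0, 12), (0, 68), (0, 73)]⟩) (.cons (.leaf ⟨true, 222, [(0, 12), (0, 72), (0, 196)]⟩ ⟨false,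
    109, [(0, 12), (0, 68), (0, 73)]⟩) (.cons (.leaf ⟨true, 254, [(0, 14), (0, 132), (0, 130), (0,
    184), (0, 200)]⟩ ⟨false, 151, [(0, 6), (0, 131), (0, 148)]⟩) (.cons (.leaf ⟨true, 222, [(0,
    14), (0, 132), (0, 130), (0, 200)]⟩ ⟨false, 183, [(0, 6), (0, 53), (0, 51), (0, 131), (0,
    148)]⟩) (.cons (.leaf ⟨true, 254, [(0, 12), (0, 72), (0, 138), (0, 196)]⟩ ⟨false, 77, [(0,
    12), (0, 68), (0, 73)]⟩) (.cons (.leaf ⟨true, 222, [(0, 12), (0, 72), (0, 138), (0, 196)]⟩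
    ⟨false, 109, [(0, 12), (0, 68), (0, 73)]⟩) (.cons (.leaf ⟨true, 254, [(0, 12), (0, 72), (0,
    170), (0, 196)]⟩ ⟨false, 77, [(0, 12), (0, 68), (0, 73)]⟩) (.cons (.leaf ⟨true, 222, [(0, 12),
    (0, 72), (0, 138), (0, 196)]⟩ ⟨false, 109, [(0, 12), (0, 68), (0, 73)]⟩) (.nil))))))))))
    (.cons (.viol ⟨false, 73, [(0, 9), (0, 65), (64, 1)]⟩ ⟨false, 54, [(0, 6), (0, 20), (64, 50)]⟩
    3 (.cons (.leaf ⟨true, 185, [(0, 24), (0, 136), (0, 144)]⟩ ⟨false, 86, [(0, 16)]⟩) (.cons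
    (.leaf ⟨false, 182, [(0, 6), (0, 20), (0, 50)]⟩ ⟨false, 73, [(0, 9), (0, 65)]⟩) (.cons (.leaf
    ⟨true, 185, [(0, 24), (0, 144), (0, 168)]⟩ ⟨false, 86, [(0, 16)]⟩) (.cons (.exN ⟨true, 206,
    [(0, 12), (0, 72), (0, 138), (0, 196)]⟩ ⟨false, 125, [(0, 28), (0, 68), (0, 73), (0, 81)]⟩ 3 6
    (.exN ⟨false, 239, [(0, 44), (0, 41), (0, 38), (0, 75), (0, 140), (0, 228), (0, 225)]⟩ ⟨true,
    184, [(0, 40), (0, 136), (0, 160)]⟩ 2 3 (.leaf ⟨true, 148, [(0, 128)]⟩ ⟨false, 235, [(0,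
    192)]⟩))) (.cons (.leaf ⟨true, 184, [(0, 24), (0, 136), (0, 144)]⟩ ⟨false, 215, [(0, 20), (0,
    17)]⟩) (.cons (.leaf ⟨true, 68, [(0, 64)]⟩ ⟨false, 251, [(0, 73), (0, 66), (0, 80)]⟩) (.cons
    (.leaf ⟨true, 185, [(0, 24), (0, 137), (0, 144), (0, 168)]⟩ ⟨false, 86, [(0, 16)]⟩) (.cons
    (.exN ⟨true, 206, [(0, 12), (0, 72), (0, 196)]⟩ ⟨false, 125, [(0, 28), (0, 68), (0, 73), (0,
    81)]⟩ 3 6 (.leaf ⟨true, 142, [(0, 14), (0, 132), (0, 136), (0, 130)]⟩ ⟨false, 241, [(0, 144),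
    (0, 192)]⟩)) (.nil)))))))))) (.nil)))) (.exN ⟨true, 59, [(0, 3), (0, 18), (0, 42), (0, 57)]⟩
    ⟨false, 23, [(0, 3), (0, 17), (0, 22)]⟩ 1 4 (.leaf ⟨true, 40, [(0, 8)]⟩ ⟨false, 31, [(0, 11),
    (0, 28), (0, 25), (0, 22)]⟩))

/-- a part of the certificate -/
def c14 : Tree :=
  .viol ⟨true, 46, [(0, 12), (0, 6), (0, 10)]⟩ ⟨false, 31, [(0, 6), (0, 11), (0, 28), (0, 19)]⟩ 3
    (.cons (.viol ⟨false, 105, [(0, 9), (0, 65), (64, 1)]⟩ ⟨false, 22, [(0, 6), (0, 20), (64,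
    18)]⟩ 3 (.cons (.leaf ⟨true, 254, [(0, 12), (0, 72), (0, 184), (0, 196)]⟩ ⟨false, 77, [(0,
    12), (0, 68), (0, 73)]⟩) (.cons (.leaf ⟨true, 254, [(0, 12), (0, 72), (0, 138), (0, 184), (0,
    196)]⟩ ⟨false, 77, [(0, 12), (0, 68), (0, 73)]⟩) (.cons (.leaf ⟨true, 254, [(0, 14), (0, 130),
    (0, 148), (0, 232)]⟩ ⟨false, 151, [(0, 6), (0, 21), (0, 19), (0, 131), (0, 148)]⟩) (.cons
    (.leaf ⟨true, 188, [(0, 40), (0, 136), (0, 160)]⟩ ⟨false, 235, [(0, 40), (0, 75), (0, 136),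
    (0, 162), (0, 224)]⟩) (.cons (.leaf ⟨true, 254, [(0, 12), (0, 72), (0, 196)]⟩ ⟨false, 77, [(0,
    12), (0, 68), (0, 73)]⟩) (.cons (.leaf ⟨true, 254, [(0, 12), (0, 72), (0, 138), (0, 196)]⟩
    ⟨false, 77, [(0, 12), (0, 68), (0, 73)]⟩) (.cons (.leaf ⟨true, 254, [(0, 12), (0, 72), (0,
    138), (0, 152), (0, 196)]⟩ ⟨false, 77, [(0, 12), (0, 68), (0, 73)]⟩) (.cons (.leaf ⟨true, 254,
    [(0, 12), (0, 72), (0, 138), (0, 196)]⟩ ⟨false, 77, [(0, 12), (0, 68), (0, 73)]⟩)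
    (.nil)))))))))) (.cons (.viol ⟨false, 105, [(0, 9), (0, 65), (64, 1)]⟩ ⟨false, 22, [(0, 6),
    (0, 20), (64, 18)]⟩ 3 (.cons (.leaf ⟨true, 185, [(0, 24), (0, 144), (0, 168)]⟩ ⟨false, 86,
    [(0, 16)]⟩) (.cons (.leaf ⟨true, 153, [(0, 25), (0, 136), (0, 129), (0, 144)]⟩ ⟨false, 247,
    [(0, 17), (0, 54), (0, 86), (0, 116), (0, 148), (0, 195)]⟩) (.cons (.leaf ⟨true, 185, [(0,
    24), (0, 144), (0, 168)]⟩ ⟨false, 86, [(0, 16)]⟩) (.cons (.leaf ⟨true, 188, [(0, 44), (0, 56),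
    (0, 148), (0, 152), (0, 160)]⟩ ⟨false, 251, [(0, 56), (0, 50), (0, 75), (0, 82), (0, 112), (0,
    152), (0, 146), (0, 162), (0, 208)]⟩) (.cons (.leaf ⟨true, 68, [(0, 64)]⟩ ⟨false, 251, [(0,
    73), (0, 66), (0, 80)]⟩) (.cons (.leaf ⟨true, 68, [(0, 64)]⟩ ⟨false, 251, [(0, 73), (0, 66),
    (0, 80)]⟩) (.cons (.leaf ⟨true, 185, [(0, 24), (0, 144), (0, 168)]⟩ ⟨false, 86, [(0, 16)]⟩)
    (.cons (.leaf ⟨true, 153, [(0, 25), (0, 136), (0, 129), (0, 144)]⟩ ⟨false, 247, [(0, 17), (0,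
    148), (0, 195)]⟩) (.nil)))))))))) (.nil)))

/-- a part of the certificate -/
def c15 : Tree :=
  .viol ⟨true, 46, [(0, 12), (0, 6), (0, 10)]⟩ ⟨false, 31, [(0, 6), (0, 11), (0, 28)]⟩ 3 (.cons
    (.viol ⟨false, 105, [(0, 9), (0, 65), (64, 1)]⟩ ⟨false, 22, [(0, 6), (0, 20), (64, 18)]⟩ 3
    (.cons (.leaf ⟨true, 254, [(0, 12), (0, 72), (0, 184), (0, 196)]⟩ ⟨false, 77, [(0, 12), (0,
    68), (0, 73)]⟩) (.cons (.leaf ⟨true, 254, [(0, 12), (0, 72), (0, 138), (0, 196)]⟩ ⟨false, 77,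
    [(0, 12), (0, 68), (0, 73)]⟩) (.cons (.leaf ⟨true, 254, [(0, 14), (0, 132), (0, 130), (0,
    184), (0, 200)]⟩ ⟨false, 151, [(0, 6), (0, 131), (0, 148)]⟩) (.cons (.leaf ⟨true, 254, [(0,
    14), (0, 130), (0, 148), (0, 196), (0, 200)]⟩ ⟨false, 151, [(0, 6), (0, 21), (0, 19), (0,
    131), (0, 148)]⟩) (.cons (.leaf ⟨true, 254, [(0, 12), (0, 72), (0, 196)]⟩ ⟨false, 77, [(0,
    12), (0, 68), (0, 73)]⟩) (.cons (.leaf ⟨true, 254, [(0, 12), (0, 72), (0, 138), (0, 196)]⟩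
    ⟨false, 77, [(0, 12), (0, 68), (0, 73)]⟩) (.cons (.leaf ⟨true, 254, [(0, 12), (0, 72), (0,
    152), (0, 196)]⟩ ⟨false, 77, [(0, 12), (0, 68), (0, 73)]⟩) (.cons (.leaf ⟨true, 254, [(0, 12),
    (0, 72), (0, 138), (0, 196)]⟩ ⟨false, 77, [(0, 12), (0, 68), (0, 73)]⟩) (.nil)))))))))) (.cons
    (.viol ⟨false, 105, [(0, 9), (0, 65), (64, 1)]⟩ ⟨false, 22, [(0, 6), (0, 20), (64, 18)]⟩ 3
    (.cons (.leaf ⟨true, 185, [(0, 24), (0, 136), (0, 144)]⟩ ⟨false, 86, [(0, 16)]⟩) (.cons (.leaf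
    ⟨false, 105, [(0, 9), (0, 72), (0, 65)]⟩ ⟨false, 150, [(0, 6), (0, 20)]⟩) (.cons (.leaf ⟨true,
    185, [(0, 25), (0, 129), (0, 144), (0, 168)]⟩ ⟨false, 215, [(0, 17), (0, 86), (0, 148), (0,
    195)]⟩) (.cons (.leaf ⟨true, 188, [(0, 56), (0, 148), (0, 152), (0, 160)]⟩ ⟨false, 251, [(0,
    56), (0, 50), (0, 75), (0, 82), (0, 112), (0, 152), (0, 146), (0, 162), (0, 208)]⟩) (.cons
    (.leaf ⟨true, 184, [(0, 24), (0, 144), (0, 168)]⟩ ⟨false, 215, [(0, 20), (0, 17)]⟩) (.cons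
    (.leaf ⟨true, 68, [(0, 64)]⟩ ⟨false, 251, [(0, 73), (0, 66), (0, 80)]⟩) (.cons (.leaf ⟨true,
    185, [(0, 24), (0, 136), (0, 144)]⟩ ⟨false, 86, [(0, 16)]⟩) (.cons (.exN ⟨true, 238, [(0, 12),
    (0, 10), (0, 72), (0, 198)]⟩ ⟨false, 95, [(0, 11), (0, 28), (0, 73), (0, 70), (0, 83)]⟩ 3 6
    (.leaf ⟨true, 174, [(0, 14), (0, 132), (0, 136), (0, 130)]⟩ ⟨false, 209, [(0, 144), (0,
    192)]⟩)) (.nil)))))))))) (.nil)))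

/-- the certificate -/
def cert : Bool → Bool → Bool → Tree
  | false, false, false =>
    .nil
  | true, false, false =>
    .exN ⟨false, 15, [(0, 7), (0, 9), (0, 12)]⟩ ⟨true, 9, [(0, 8)]⟩ 0 3 (.leaf ⟨true, 9, [(0, 8)]⟩
      ⟨false, 6, [(0, 4)]⟩)
  | false, true, false =>
    .exN ⟨false, 15, [(0, 3), (0, 6), (0, 13)]⟩ ⟨true, 2, [(0, 2)]⟩ 1 2 (.leaf ⟨true, 2, [(0, 2)]⟩
      ⟨false, 13, [(0, 1)]⟩)
  | true, true, false =>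
    .split 0 15 (.leaf ⟨true, 8, [(0, 8)]⟩ ⟨false, 15, [(0, 9), (0, 12)]⟩) (.split 2 13 (.exN
      ⟨false, 15, [(0, 3), (0, 6), (0, 13)]⟩ ⟨true, 6, [(0, 2)]⟩ 1 2 (.leaf ⟨true, 11, [(0, 3), (0,
      10)]⟩ ⟨false, 5, [(0, 1)]⟩)) (.split 3 12 (.split 6 9 (.exU ⟨false, 5, [(0, 4)]⟩ ⟨false, 11,
      [(0, 3), (0, 9)]⟩ (.split 8 7 (.leaf ⟨true, 8, [(0, 8)]⟩ ⟨false, 15, [(0, 7), (0, 9), (0,
      12)]⟩) (.exU ⟨true, 14, [(0, 10), (0, 12)]⟩ ⟨false, 13, [(0, 9), (0, 12)]⟩ (.exU ⟨false, 14,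
      [(0, 6), (0, 12)]⟩ ⟨false, 5, [(0, 1)]⟩ (.split 12 3 (.split 1 14 (.exN ⟨false, 15, [(0, 9),
      (0, 12)]⟩ ⟨true, 8, [(0, 8)]⟩ 0 1 (.viol ⟨true, 14, [(0, 6), (0, 10), (0, 12)]⟩ ⟨false, 5,
      [(0, 4)]⟩ 3 (.cons (.part 4 (.cons c0 (.cons c1 (.cons c2 (.cons c3 (.cons c4 (.cons c5 (.cons
      c6 (.cons c7 (.nil)))))))))) (.nil)))) (.viol ⟨true, 11, [(0, 9), (0, 10), (0, 3)]⟩ ⟨false, 5,
      [(0, 1)]⟩ 1 (.cons (.part 4 (.cons c8 (.cons c9 (.cons c10 (.cons c11 (.cons c12 (.cons c13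
      (.cons c14 (.cons c15 (.nil)))))))))) (.nil)))) (.leaf ⟨true, 2, [(0, 2)]⟩ ⟨false, 15, [(0,
      6), (0, 11), (0, 12)]⟩)))))) (.exN ⟨false, 7, [(0, 3), (0, 6)]⟩ ⟨true, 11, [(0, 3), (0, 10)]⟩
      1 2 (.leaf ⟨true, 11, [(0, 3), (0, 10)]⟩ ⟨false, 5, [(0, 1)]⟩))) (.exN ⟨false, 15, [(0, 3),
      (0, 9), (0, 14)]⟩ ⟨true, 9, [(0, 8)]⟩ 0 3 (.leaf ⟨true, 9, [(0, 8)]⟩ ⟨false, 14, [(0, 6)]⟩))))
  | false, false, true =>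
    .nil
  | true, false, true =>
    .leaf ⟨true, 10, [(0, 2)]⟩ ⟨false, 7, [(0, 3), (0, 5), (0, 6)]⟩
  | false, true, true =>
    .leaf ⟨true, 10, [(0, 8)]⟩ ⟨false, 13, [(0, 9), (0, 12)]⟩
  | true, true, true =>
    .exN ⟨false, 13, [(0, 9), (0, 12)]⟩ ⟨true, 10, [(0, 8)]⟩ 0 3 (.leaf ⟨true, 10, [(0, 2)]⟩ ⟨false,
      7, [(0, 3), (0, 6)]⟩)

end PoolAgent.MP9fa5c3.Cert
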