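import Pool.Agent.W_MP_9fa5c3_co.Cert

/-!
# MP_9fa5c3_co : the kernel check of the certificate
-/

namespace PoolAgent.MP9fa5c3.Cert

theorem cert_ok : ∀ p q r : Bool, check (cert p q r) (.one (fresh (ini p q r))) = true := by
  decide +kernel

end PoolAgent.MP9fa5c3.Cert
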