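import Pool.Agent.W_MP_9fa5c3_co.Defs

/-!
# MP_9fa5c3_co : the certificate checker

A certificate is a finite decision tree about a few *special* vertices `σ 0, ..., σ (k-1)`.
Every other vertex has a *type*: the pair of bit masks of its red and of its blue neighbours among
the special vertices.  This file contains only computable definitions.
-/

namespace PoolAgent.MP9fa5c3.Cert

/-- a type: (red mask, blue mask) -/
abbrev Ty := Nat × Nat

/-- the mask of colour `c` (`true` = red) -/
def N (t : Ty) (c : Bool) : Nat := if c then t.1 else t.2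

/-- the special vertices which are not adjacent to a vertex of type `t` -/
def tag (k : Nat) (t : Ty) : Nat := Nat.xor (Nat.sub (Nat.pow 2 k) 1) (Nat.lor t.1 t.2)

/-- `a` is a subset of `b` -/
def sub (a b : Nat) : Bool := Nat.beq (Nat.land a b) a

/-- nonempty intersection etc. -/
def nz (a : Nat) : Bool := !(Nat.beq a 0)

/-- bit `i` of `a` -/
def bit (a i : Nat) : Bool := nz (Nat.land a (Nat.pow 2 i))

/-- One side of a cover: a colour, a set of special vertices, and a list of pairs `(g, q)`: a
non-special vertex belongs to the side when for some pair its mask contains `q` and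
`g = 0` or `g` is its tag. -/
structure Side where
  c : Bool
  X : Nat
  Q : List (Nat × Nat)

/-- a state -/
structure St where
  k : Nat
  sp : List Ty
  ty : List Ty
  fs : List (List Ty)

/-- membership of a type in a side -/
def inL (k : Nat) (d : Side) (t : Ty) : Bool :=
  d.Q.any fun p => (Nat.beq p.1 0 || Nat.beq p.1 (tag k t)) && sub p.2 (N t d.c)

/-- type against type -/
def pairOK (d : Side) : Bool :=
  d.Q.all fun p => d.Q.all fun q =>
    (Nat.beq p.1 q.1 && nz p.1) || nz (Nat.land (Nat.land p.2 q.2) d.X)

/-- type against special vertex `j` -/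
def specOK (s : St) (d : Side) (j : Nat) : Bool :=
  !(bit d.X j) || d.Q.all fun p =>
    nz (Nat.land (Nat.land p.2 d.X) (Nat.lor (Nat.pow 2 j) (N (s.sp.getD j (0, 0)) d.c)))

/-- special vertex against special vertex -/
def needOK (s : St) (d : Side) (i j : Nat) : Bool :=
  !(bit d.X i) || !(bit d.X j) || bit (N (s.sp.getD i (0, 0)) d.c) j ||
  nz (Nat.land (Nat.land (N (s.sp.getD i (0, 0)) d.c) (N (s.sp.getD j (0, 0)) d.c)) d.X) ||
  s.fs.any fun f => f.all fun t => bit (N t d.c) i && bit (N t d.c) j && inL s.k d t

/-- all pairs of special vertices except `(i0, j0)` -/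
def needsOK (s : St) (d : Side) (i0 j0 : Nat) : Bool :=
  (List.range s.k).all fun i => (List.range s.k).all fun j =>
    Nat.ble j i || (Nat.beq i i0 && Nat.beq j j0) || needOK s d i j

/-- type against all special vertices except `e` -/
def specsOK (s : St) (d : Side) (e : Nat) : Bool :=
  (List.range s.k).all fun j => Nat.beq j e || specOK s d j

/-- the two sides contain all special vertices -/
def fullOK (s : St) (A B : Side) : Bool :=
  Nat.beq (Nat.lor A.X B.X) (Nat.sub (Nat.pow 2 s.k) 1)

/-- all types belong to one of the sides -/
def labOK (s : St) (A B : Side) : Bool := s.ty.all fun t => inL s.k A t || inL s.k B t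

/-- the extensions of a type by the adjacency to a new special vertex of type `t` -/
def extTy (k : Nat) (t q : Ty) : List Ty :=
  if nz (tag k t) then
    (if Nat.beq (tag k q) (tag k t) then []
      else [(Nat.lor q.1 (Nat.pow 2 k), q.2), (q.1, Nat.lor q.2 (Nat.pow 2 k))])
  else
    (if nz (tag k q) then [(Nat.lor q.1 (Nat.pow 2 k), q.2), (q.1, Nat.lor q.2 (Nat.pow 2 k))]
      else [(Nat.lor q.1 (Nat.pow 2 k), q.2), (q.1, Nat.lor q.2 (Nat.pow 2 k)), q])

/-- decidable equality of types -/
def tyEq (a b : Ty) : Bool := Nat.beq a.1 b.1 && Nat.beq a.2 b.2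

/-- the new special vertices -/
def extSp (k : Nat) (t : Ty) (i : Nat) : List Ty → List Ty
  | [] => [t]
  | p :: l => (if bit t.1 i then Nat.lor p.1 (Nat.pow 2 k) else p.1,
      if bit t.2 i then Nat.lor p.2 (Nat.pow 2 k) else p.2) :: extSp k t (i + 1) l

/-- the state after a vertex of type `t` became special -/
def ext (s : St) (t : Ty) : St where
  k := s.k + 1
  sp := extSp s.k t 0 s.sp
  ty := s.ty.flatMap (extTy s.k t)
  fs := (s.fs.filter fun f => !(f.any (tyEq t))).map fun f => f.flatMap (extTy s.k t)

/-- keep only the types satisfying `p` -/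
def restrict (s : St) (p : Ty → Bool) : St where
  k := s.k
  sp := s.sp
  ty := s.ty.filter p
  fs := s.fs.map fun f => f.filter p

/-- add a fact -/
def addFact (s : St) (f : List Ty) : St where
  k := s.k
  sp := s.sp
  ty := s.ty
  fs := f :: s.fs

/-- a type of the extended state is excluded by a conflict with the special vertex `i` -/
def forb (k : Nat) (d : Side) (i : Nat) (u : Ty) : Bool :=
  bit (N u d.c) k &&
    (inL k d (Nat.land u.1 (Nat.sub (Nat.pow 2 k) 1), Nat.land u.2 (Nat.sub (Nat.pow 2 k) 1)) &&
      bit (N u d.c) i)

/-- the state after a conflict between a vertex of type `t` and the special vertex `i` -/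
def violChild (s : St) (d : Side) (i : Nat) (t : Ty) : St :=
  restrict (ext s t) fun u => !(forb s.k d i u)

/-- the facts which hold because there is no cover by two stars -/
def starFact (s : St) (p q : Nat) (c : Bool) : List (List Ty) :=
  if (List.range s.k).any fun z => !(Nat.beq z p) && !(Nat.beq z q) &&
      !(bit (N (s.sp.getD p (0, 0)) c) z) && !(bit (N (s.sp.getD q (0, 0)) c) z) then []
  else [s.ty.filter fun t => !(bit (N t c) p) && !(bit (N t c) q)]

/-- the facts which hold because every vertex has a partner -/
def partFact (s : St) (i : Nat) : List (List Ty) :=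
  if Nat.beq (Nat.lor (Nat.lor (s.sp.getD i (0, 0)).1 (s.sp.getD i (0, 0)).2) (Nat.pow 2 i))
      (Nat.sub (Nat.pow 2 s.k) 1) then
    [s.ty.filter fun t => Nat.beq (tag s.k t) (Nat.pow 2 i)]
  else []

/-- add all these facts -/
def fresh (s : St) : St where
  k := s.k
  sp := s.sp
  ty := s.ty
  fs := s.fs ++ ((List.range s.k).flatMap fun p => (List.range p).flatMap fun q =>
      starFact s p q true ++ starFact s p q false) ++ (List.range s.k).flatMap (partFact s)

/-- membership test of a type in the witness set of the pair `(i, j)` -/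
def wit (k : Nat) (d : Side) (i j : Nat) (t : Ty) : Bool :=
  bit (N t d.c) i && bit (N t d.c) j && inL k d t

/-- a type which conflicts with the special vertex `i` -/
def violates (s : St) (d : Side) (i : Nat) (t : Ty) : Bool :=
  inL s.k d t && !(nz (Nat.land (Nat.land (N t d.c) d.X)
    (Nat.lor (Nat.pow 2 i) (N (s.sp.getD i (0, 0)) d.c))))

/-- certificates -/
inductive Tree where
  | leaf (A B : Side)
  | exU (A B : Side) (t : Tree)
  | exN (A B : Side) (i j : Nat) (t : Tree)
  | split (r b : Nat) (t₁ t₂ : Tree)
  | viol (A B : Side) (i : Nat) (t : Tree)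
  | part (i : Nat) (t : Tree)
  | cons (t₁ t₂ : Tree)
  | nil

/-- what a certificate is checked against -/
inductive Ctx where
  | one (s : St)
  | many (l : List St)

/-- the common conditions of all nodes with a cover -/
def base (s : St) (A B : Side) (e i j : Nat) : Bool :=
  fullOK s A B && pairOK A && pairOK B && specsOK s A e && specsOK s B s.k &&
    needsOK s A i j && needsOK s B s.k s.k

/-- the checker -/
def check : Tree → Ctx → Bool
  | .leaf A B, .one s => base s A B s.k s.k s.k && labOK s A B
  | .exU A B t, .one s => base s A B s.k s.k s.k &&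
      check t (.one (addFact s (s.ty.filter fun u => !(inL s.k A u) && !(inL s.k B u))))
  | .exN A B i j t, .one s => base s A B s.k i j && labOK s A B &&
      check t (.one (restrict s fun u => !(wit s.k A i j u)))
  | .split r b t₁ t₂, .one s => check t₁ (.one (addFact s [(r, b)])) &&
      check t₂ (.one (restrict s fun u => !(tyEq (r, b) u)))
  | .viol A B i t, .one s => base s A B i s.k s.k && labOK s A B && Nat.blt i s.k &&
      check t (.many ((s.ty.filter (violates s A i)).map fun u => fresh (violChild s A i u)))
  | .part i t, .one s => Nat.blt i s.k &&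
      Nat.beq (Nat.lor (Nat.lor (s.sp.getD i (0, 0)).1 (s.sp.getD i (0, 0)).2) (Nat.pow 2 i))
        (Nat.sub (Nat.pow 2 s.k) 1) &&
      check t (.many ((s.ty.filter fun u => Nat.beq (tag s.k u) (Nat.pow 2 i)).map fun u =>
        fresh (ext s u)))
  | .cons t₁ t₂, .many (s :: l) => check t₁ (.one s) && check t₂ (.many l)
  | .nil, .many [] => true
  | .nil, .one s => s.fs.any List.isEmpty
  | _, _ => false

end PoolAgent.MP9fa5c3.Cert
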