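import Mathlib

/-!
# MP_9fa5c3_co : covers of 2-coloured cocktail-party graphs

Definitions and the basic lemmas.  A cocktail-party graph is the complement of a perfect
matching `M`.
-/

namespace PoolAgent.MP9fa5c3

variable {V : Type*}

/-- A subgraph is monochromatic when all its edges have one colour. -/
def IsMono {G : SimpleGraph V} (col : Sym2 V → Bool) (H : G.Subgraph) : Prop :=
  ∃ b : Bool, ∀ e ∈ H.edgeSet, col e = b

/-- The coloured graph `G` has a `(p,q)`-cover: two (nonempty) monochromatic subgraphs, the first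
of diameter at most `p`, the second of diameter at most `q`, which together contain all
vertices. -/
def HasCover (G : SimpleGraph V) (col : Sym2 V → Bool) (p q : ℕ) : Prop :=
  ∃ H₁ H₂ : G.Subgraph, IsMono col H₁ ∧ IsMono col H₂ ∧
    H₁.verts.Nonempty ∧ H₂.verts.Nonempty ∧
    H₁.coe.ediam ≤ (p : ℕ∞) ∧ H₂.coe.ediam ≤ (q : ℕ∞) ∧
    H₁.verts ∪ H₂.verts = Set.univ

/-- `M` is a perfect matching, as a graph: every vertex has exactly one neighbour. -/
def IsPerfectMatchingGraph (M : SimpleGraph V) : Prop := ∀ v, ∃! w, M.Adj v w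

/-- All edges of colour `c` inside the vertex set `S`. -/
def colSub (G : SimpleGraph V) (col : Sym2 V → Bool) (c : Bool) (S : Set V) : G.Subgraph where
  verts := S
  Adj x y := x ∈ S ∧ y ∈ S ∧ G.Adj x y ∧ col s(x, y) = c
  adj_sub := fun h => h.2.2.1
  edge_vert := fun h => h.1
  symm := ⟨fun x y h => ⟨h.2.1, h.1, h.2.2.1.symm, by rw [Sym2.eq_swap]; exact h.2.2.2⟩⟩

/-- coloured adjacency -/
def CAdj (G : SimpleGraph V) (col : Sym2 V → Bool) (c : Bool) (x y : V) : Prop :=
  G.Adj x y ∧ col s(x, y) = c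

section basic

variable {G : SimpleGraph V} {col : Sym2 V → Bool} {c : Bool}

lemma CAdj.symm' {x y : V} (h : CAdj G col c x y) : CAdj G col c y x :=
  ⟨h.1.symm, by rw [Sym2.eq_swap]; exact h.2⟩

lemma CAdj.ne {x y : V} (h : CAdj G col c x y) : x ≠ y := h.1.ne

lemma cadj_or {x y : V} (h : G.Adj x y) (c : Bool) : CAdj G col c x y ∨ CAdj G col (!c) x y := by
  rcases hb : col s(x, y) with _ | _ <;> rcases c with _ | _ <;> simp [CAdj, h, hb]

lemma not_both {x y : V} (h : CAdj G col c x y) : ¬ CAdj G col (!c) x y := by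
  intro h'
  have := h.2
  have h2 := h'.2
  rw [this] at h2
  cases c <;> simp at h2

lemma isMono_colSub (S : Set V) : IsMono col (colSub G col c S) := by
  refine ⟨c, ?_⟩
  intro e he
  induction e using Sym2.ind with
  | _ x y => exact he.2.2.2

lemma edist_one {S : Set V} {x y : V} (hx : x ∈ S) (hy : y ∈ S) (h : CAdj G col c x y) :
    (colSub G col c S).coe.Adj ⟨x, hx⟩ ⟨y, hy⟩ := ⟨hx, hy, h.1, h.2⟩

lemma edist_le_two {S : Set V} {x y : V} (hx : x ∈ S) (hy : y ∈ S)
    (h : x = y ∨ CAdj G col c x y ∨ ∃ w ∈ S, CAdj G col c x w ∧ CAdj G col c w y) :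
    (colSub G col c S).coe.edist ⟨x, hx⟩ ⟨y, hy⟩ ≤ 2 := by
  rcases h with h | h | ⟨w, hw, h1, h2⟩
  · subst h; simp
  · have hadj := edist_one hx hy h
    refine (SimpleGraph.edist_le (SimpleGraph.Walk.cons hadj SimpleGraph.Walk.nil)).trans ?_
    simp
  · have ha := edist_one hx hw h1
    have hb := edist_one hw hy h2
    refine (SimpleGraph.edist_le
      (SimpleGraph.Walk.cons ha (SimpleGraph.Walk.cons hb SimpleGraph.Walk.nil))).trans ?_
    simp

lemma edist_le_three {S : Set V} {x y w u : V} (hx : x ∈ S) (hy : y ∈ S) (hw : w ∈ S) (hu : u ∈ S)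
    (h1 : CAdj G col c x w) (h2 : CAdj G col c w u) (h3 : CAdj G col c u y) :
    (colSub G col c S).coe.edist ⟨x, hx⟩ ⟨y, hy⟩ ≤ 3 := by
  have ha := edist_one hx hw h1
  have hb := edist_one hw hu h2
  have hc := edist_one hu hy h3
  refine (SimpleGraph.edist_le (SimpleGraph.Walk.cons ha (SimpleGraph.Walk.cons hb
    (SimpleGraph.Walk.cons hc SimpleGraph.Walk.nil)))).trans ?_
  simp

lemma ediam_le_two {S : Set V}
    (h : ∀ x ∈ S, ∀ y ∈ S, x = y ∨ CAdj G col c x y ∨ ∃ w ∈ S, CAdj G col c x w ∧ CAdj G col c w y) :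
    (colSub G col c S).coe.ediam ≤ ((2 : ℕ) : ℕ∞) := by
  apply SimpleGraph.ediam_le_of_edist_le
  rintro ⟨x, hx⟩ ⟨y, hy⟩
  exact edist_le_two hx hy (h x hx y hy)

/-- the star of colour `c` at `v` -/
def star (G : SimpleGraph V) (col : Sym2 V → Bool) (c : Bool) (v : V) : Set V :=
  {x | x = v ∨ CAdj G col c v x}

lemma star_good (v : V) :
    ∀ x ∈ star G col c v, ∀ y ∈ star G col c v,
      x = y ∨ CAdj G col c x y ∨ ∃ w ∈ star G col c v, CAdj G col c x w ∧ CAdj G col c w y := by
  intro x hx y hy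
  rcases hx with hx | hx <;> rcases hy with hy | hy
  · left; rw [hx, hy]
  · right; left; rw [hx]; exact hy
  · right; left; rw [hy]; exact hx.symm'
  · right; right; exact ⟨v, Or.inl rfl, hx.symm', hy⟩

lemma cover_two {S T : Set V} {c d : Bool} (hS : S.Nonempty) (hT : T.Nonempty)
    (h1 : ∀ x ∈ S, ∀ y ∈ S,
      x = y ∨ CAdj G col c x y ∨ ∃ w ∈ S, CAdj G col c x w ∧ CAdj G col c w y)
    (h2 : ∀ x ∈ T, ∀ y ∈ T,
      x = y ∨ CAdj G col d x y ∨ ∃ w ∈ T, CAdj G col d x w ∧ CAdj G col d w y)
    (h : ∀ z, z ∈ S ∨ z ∈ T) : HasCover G col 2 2 :=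
  ⟨colSub G col c S, colSub G col d T, isMono_colSub S, isMono_colSub T, hS, hT,
    ediam_le_two h1, ediam_le_two h2, Set.eq_univ_of_forall h⟩

lemma cover_stars {v w : V} {c d : Bool}
    (h : ∀ z, z ∈ star G col c v ∨ z ∈ star G col d w) : HasCover G col 2 2 :=
  cover_two ⟨v, Or.inl rfl⟩ ⟨w, Or.inl rfl⟩ (star_good v) (star_good w) h

end basic

section cocktail

variable {M : SimpleGraph V} {col : Sym2 V → Bool} {c : Bool}

lemma adj_of {v v' x : V} (hM : IsPerfectMatchingGraph M) (hv : M.Adj v v') (h1 : x ≠ v)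
    (h2 : x ≠ v') : (Mᶜ).Adj v x := by
  rw [SimpleGraph.compl_adj]
  refine ⟨h1.symm, fun h => h2 ?_⟩
  obtain ⟨w, hw, huniq⟩ := hM v
  rw [huniq x h, huniq v' hv]

lemma not_adj {v v' : V} (hv : M.Adj v v') (c : Bool) : ¬ CAdj (Mᶜ) col c v v' := by
  intro h
  have := h.1
  rw [SimpleGraph.compl_adj] at this
  exact this.2 hv

/-- without a (2,2)-cover the two partners have a common neighbour in each colour -/
lemma exists_common (hM : IsPerfectMatchingGraph M) {v v' : V} (hv : M.Adj v v')
    (hno : ¬ HasCover (Mᶜ) col 2 2) (c : Bool) :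
    ∃ a, CAdj (Mᶜ) col c v a ∧ CAdj (Mᶜ) col c v' a := by
  by_contra hcon
  push Not at hcon
  apply hno
  refine cover_stars (v := v) (w := v') (c := !c) (d := !c) ?_
  intro z
  by_cases h1 : z = v
  · left; left; exact h1
  by_cases h2 : z = v'
  · right; left; exact h2
  rcases cadj_or (col := col) (adj_of hM hv h1 h2) c with h | h
  · right; right
    rcases cadj_or (col := col) (adj_of hM hv.symm h2 h1) c with h' | h'
    · exact absurd h' (hcon z h)
    · exact h'
  · left; right; exact h

/-- the vertex `p₀` -/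
lemma exists_blocker (hM : IsPerfectMatchingGraph M) {v v' : V} (hv : M.Adj v v')
    (hno : ¬ HasCover (Mᶜ) col 2 2) (c : Bool) :
    ∃ p, CAdj (Mᶜ) col c v p ∧ CAdj (Mᶜ) col (!c) v' p ∧
      ∀ a, CAdj (Mᶜ) col c v a → CAdj (Mᶜ) col c v' a → ¬ CAdj (Mᶜ) col c p a := by
  by_contra hcon
  push Not at hcon
  obtain ⟨a₀, ha1, ha2⟩ := exists_common hM hv hno c
  apply hno
  refine cover_two (S := insert v' (star (Mᶜ) col c v)) (T := star (Mᶜ) col (!c) v)
    (c := c) (d := !c) ⟨v', Or.inl rfl⟩ ⟨v, Or.inl rfl⟩ ?_ (star_good v) ?_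
  · have key : ∀ y ∈ star (Mᶜ) col c v, CAdj (Mᶜ) col c v' y ∨
        ∃ w ∈ insert v' (star (Mᶜ) col c v), CAdj (Mᶜ) col c v' w ∧ CAdj (Mᶜ) col c w y := by
      intro y hy
      rcases hy with hy | hy
      · right
        exact ⟨a₀, Or.inr (Or.inr ha1), ha2, by rw [hy]; exact ha1.symm'⟩
      · have hyv' : y ≠ v' := by
          intro h; rw [h] at hy; exact not_adj hv c hy
        rcases cadj_or (col := col) (adj_of hM hv.symm hyv' hy.ne.symm) c with h | h
        · left; exact h
        · right
          obtain ⟨a, h1, h2, h3⟩ := hcon y hy h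
          exact ⟨a, Or.inr (Or.inr h1), h2, h3.symm'⟩
    intro x hx y hy
    rcases hx with hx | hx <;> rcases hy with hy | hy
    · left; rw [hx, hy]
    · right
      rw [hx]
      exact key y hy
    · right
      rw [hy]
      rcases key x hx with h | ⟨w, hw, h1, h2⟩
      · left; exact h.symm'
      · right; exact ⟨w, hw, h2.symm', h1.symm'⟩
    · rcases star_good (G := Mᶜ) (col := col) (c := c) v x hx y hy with h | h | ⟨w, hw, h⟩
      · left; exact h
      · right; left; exact h
      · right; right; exact ⟨w, Or.inr hw, h⟩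
  · intro z
    by_cases h1 : z = v
    · right; left; exact h1
    by_cases h2 : z = v'
    · left; left; exact h2
    rcases cadj_or (col := col) (adj_of hM hv h1 h2) c with h | h
    · left; right; right; exact h
    · right; right; exact h

/-- there are at least two vertices joined to `v` in colour `c` and to `v'` in the other one -/
lemma exists_two (hM : IsPerfectMatchingGraph M) {v v' : V} (hv : M.Adj v v')
    (hno : ¬ HasCover (Mᶜ) col 2 2) (c : Bool) :
    ∃ p q, p ≠ q ∧ (CAdj (Mᶜ) col c v p ∧ CAdj (Mᶜ) col (!c) v' p) ∧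
      (CAdj (Mᶜ) col c v q ∧ CAdj (Mᶜ) col (!c) v' q) := by
  by_contra hcon
  push Not at hcon
  obtain ⟨p, hp1, hp2, hp3⟩ := exists_blocker hM hv hno c
  obtain ⟨q, hq1, hq2, hq3⟩ := exists_blocker hM hv.symm hno (!c)
  rw [Bool.not_not] at hq2
  have huni : ∀ z, CAdj (Mᶜ) col c v z → CAdj (Mᶜ) col (!c) v' z → z = p := by
    intro z h1 h2
    by_contra hz
    exact hcon z p hz ⟨h1, h2⟩ hp1 hp2
  have hqp : q = p := huni q hq2 hq1
  subst hqp
  obtain ⟨q', hq', hq'u⟩ := hM q
  have hvq' : M.Adj v q' → False := by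
    intro h
    have h1 := (hM q').unique h.symm hq'.symm
    exact hq1.ne (by
      exfalso
      rw [← h1] at hq2
      exact hq2.ne rfl)
  -- the partner of `q` is a common `c`-neighbour
  have hA : CAdj (Mᶜ) col c v q' ∧ CAdj (Mᶜ) col c v' q' := by
    by_contra hA
    apply hno
    refine cover_stars (v := q) (w := v) (c := !c) (d := !c) ?_
    intro z
    by_cases h1 : z = v
    · right; left; exact h1
    by_cases h2 : z = v'
    · left; right; rw [h2]; exact hp2.symm'
    rcases cadj_or (col := col) (adj_of hM hv h1 h2) c with h | h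
    · rcases cadj_or (col := col) (adj_of hM hv.symm h2 h1) c with h' | h'
      · -- `z` is a common `c`-neighbour
        left
        by_cases hzq : z = q
        · left; exact hzq
        by_cases hzq' : z = q'
        · exfalso; apply hA; rw [← hzq']; exact ⟨h, h'⟩
        rcases cadj_or (col := col) (adj_of hM hq' hzq hzq') c with h'' | h''
        · exact absurd h'' (hp3 z h h')
        · right; exact h''
      · left; left; exact huni z h h'
    · right; right; exact h
  have hD : CAdj (Mᶜ) col (!c) v q' ∧ CAdj (Mᶜ) col (!c) v' q' := by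
    by_contra hD
    apply hno
    refine cover_stars (v := q) (w := v') (c := c) (d := c) ?_
    intro z
    by_cases h1 : z = v
    · left; right; rw [h1]; exact hq2.symm'
    by_cases h2 : z = v'
    · right; left; exact h2
    rcases cadj_or (col := col) (adj_of hM hv.symm h2 h1) c with h | h
    · right; right; exact h
    · rcases cadj_or (col := col) (adj_of hM hv h1 h2) c with h' | h'
      · left; left; exact huni z h' h
      · left
        by_cases hzq : z = q
        · left; exact hzq
        by_cases hzq' : z = q'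
        · exfalso; apply hD; rw [← hzq']; exact ⟨h', h⟩
        rcases cadj_or (col := col) (adj_of hM hq' hzq hzq') c with h'' | h''
        · right; exact h''
        · exact absurd h'' (hq3 z h h')
  exact not_both hA.1 hD.1

end cocktail

end PoolAgent.MP9fa5c3
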