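import Pool.Agent.W_MP_9fa5c3_co.Defs

/-!
# A (2,2)-cover when some vertex meets few edges of one colour

In a 2-coloured cocktail-party graph without a (2,2)-cover, partners `v, v'` have a common
neighbour in each colour, and (via a blocking vertex for each of two families of covers) at least
two vertices are joined to `v` in colour `c` and to `v'` in the other colour.  So every vertex
meets at least three edges of each colour.
-/

open PoolAgent.MP9fa5c3

/-- **Result.**  If in a 2-coloured cocktail-party graph some vertex meets at most two edges of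
one of the two colours, then there is a (2,2)-cover. -/
theorem PoolAgent.MP9fa5c3.old_SmallDegreeCover {V : Type} [Nonempty V]
    (M : SimpleGraph V) (hM : IsPerfectMatchingGraph M) (col : Sym2 V → Bool)
    (hdeg : ∃ (v : V) (c : Bool), {x | (Mᶜ).Adj v x ∧ col s(v, x) = c}.encard ≤ 2) :
    HasCover (Mᶜ) col 2 2 := by
  obtain ⟨v, c, hle⟩ := hdeg
  by_contra hno
  obtain ⟨v', hv, -⟩ := hM v
  obtain ⟨a, ha1, ha2⟩ := exists_common hM hv hno c
  obtain ⟨p, q, hpq, ⟨hp1, hp2⟩, ⟨hq1, hq2⟩⟩ := exists_two hM hv hno c
  have hap : a ≠ p := by rintro rfl; exact not_both ha2 hp2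
  have haq : a ≠ q := by rintro rfl; exact not_both ha2 hq2
  have hsub : ({a, p, q} : Set V) ⊆ {x | (Mᶜ).Adj v x ∧ col s(v, x) = c} := by
    rintro x (rfl | rfl | rfl)
    · exact ha1
    · exact hp1
    · exact hq1
  have h3 : ({a, p, q} : Set V).encard = 3 := by
    rw [Set.encard_eq_three]
    exact ⟨a, p, q, hap, haq, hpq, rfl⟩
  have := (Set.encard_le_encard hsub).trans hle
  rw [h3] at this
  norm_num at this
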