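import Pool.Agent.W_MP_9fa5c3_co.Defs

/-!
# Every 2-coloured cocktail-party graph has a (2,3)-cover

Take partners `v, v'`.  If they have no common red neighbour, the blue stars at `v` and `v'`
cover everything.  Otherwise the blue star at `v` has diameter at most 2, and the red star at `v`
together with `v'` has diameter at most 3 in red, as a common red neighbour joins `v'` to `v`.
-/

open PoolAgent.MP9fa5c3

/-- **Result.**  Let `M` be a perfect matching on the (nonempty) vertex set `V` and let the edges
of its complement, the cocktail-party graph, be coloured with two colours.  Then there are two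
monochromatic subgraphs, one of diameter at most 2 and one of diameter at most 3, which together
contain all vertices. -/
theorem PoolAgent.MP9fa5c3.old_TwoThreeCover {V : Type} [Nonempty V]
    (M : SimpleGraph V) (hM : IsPerfectMatchingGraph M) (col : Sym2 V → Bool) :
    HasCover (Mᶜ) col 2 3 := by
  by_contra hno
  have hno2 : ¬ HasCover (Mᶜ) col 2 2 := by
    rintro ⟨H₁, H₂, h1, h2, h3, h4, h5, h6, h7⟩
    exact hno ⟨H₁, H₂, h1, h2, h3, h4, h5, h6.trans (by norm_num), h7⟩
  obtain ⟨v⟩ := ‹Nonempty V›
  obtain ⟨v', hv, -⟩ := hM v
  obtain ⟨a, ha1, ha2⟩ := exists_common hM hv hno2 true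
  apply hno
  refine ⟨colSub (Mᶜ) col false (star (Mᶜ) col false v),
    colSub (Mᶜ) col true (insert v' (star (Mᶜ) col true v)),
    isMono_colSub _, isMono_colSub _, ⟨v, Or.inl rfl⟩, ⟨v', Or.inl rfl⟩,
    ediam_le_two (star_good v), ?_, ?_⟩
  · have haS : a ∈ insert v' (star (Mᶜ) col true v) := Or.inr (Or.inr ha1)
    have hvS : v ∈ insert v' (star (Mᶜ) col true v) := Or.inr (Or.inl rfl)
    have hv'S : v' ∈ insert v' (star (Mᶜ) col true v) := Or.inl rfl
    have two_three : (2 : ℕ∞) ≤ 3 := by norm_num
    apply SimpleGraph.ediam_le_of_edist_le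
    rintro ⟨x, hx⟩ ⟨y, hy⟩
    rcases id hx with hx' | hx' <;> rcases id hy with hy' | hy'
    · subst hx'; subst hy'; simp
    · subst hx'
      rcases hy' with hy' | hy'
      · subst hy'
        exact (edist_le_two hx hy (Or.inr (Or.inr ⟨a, haS, ha2, ha1.symm'⟩))).trans two_three
      · exact edist_le_three hx hy haS hvS ha2 ha1.symm' hy'
    · subst hy'
      rcases hx' with hx' | hx'
      · subst hx'
        exact (edist_le_two hx hy (Or.inr (Or.inr ⟨a, haS, ha1, ha2.symm'⟩))).trans two_three
      · exact edist_le_three hx hy hvS haS hx'.symm' ha1 ha2.symm'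
    · refine (edist_le_two hx hy ?_).trans two_three
      rcases star_good (G := Mᶜ) (col := col) (c := true) v x hx' y hy' with h | h | ⟨w, hw, h⟩
      · left; exact h
      · right; left; exact h
      · right; right; exact ⟨w, Or.inr hw, h⟩
  · refine Set.eq_univ_of_forall ?_
    intro z
    by_cases h1 : z = v
    · left; left; exact h1
    by_cases h2 : z = v'
    · right; left; exact h2
    rcases cadj_or (col := col) (adj_of hM hv h1 h2) true with h | h
    · right; right; right; exact h
    · left; right; exact h
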