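import Pool.Agent.W_MP_9fa5c3_co.Check

/-!
# MP_9fa5c3_co : soundness of the checker, part 1

Masks, types of vertices, and the goodness of a side.
-/

namespace PoolAgent.MP9fa5c3.Cert

open Classical

lemma nz_iff {a : Nat} : nz a = true ↔ ∃ i, a.testBit i = true := by
  unfold nz
  constructor
  · intro h
    by_contra hcon
    push Not at hcon
    have h0 : a = 0 := by
      apply Nat.eq_of_testBit_eq
      intro i
      rw [Nat.zero_testBit]
      simpa using hcon i
    rw [h0] at h
    simp at h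
  · rintro ⟨i, hi⟩
    have h0 : a ≠ 0 := by
      intro h0
      rw [h0, Nat.zero_testBit] at hi
      cases hi
    have : Nat.beq a 0 = false := by
      rw [Bool.eq_false_iff]
      intro h
      exact h0 (Nat.eq_of_beq_eq_true h)
    rw [this]
    rfl

lemma bit_eq (a i : Nat) : bit a i = a.testBit i := by
  unfold bit
  have h2 : Nat.land a (Nat.pow 2 i) = a &&& 2 ^ i := rfl
  rw [Bool.eq_iff_iff, nz_iff, h2]
  constructor
  · rintro ⟨j, hj⟩
    rw [Nat.testBit_and, Bool.and_eq_true, Nat.testBit_two_pow] at hj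
    have : i = j := by simpa using hj.2
    rw [this]
    exact hj.1
  · intro h
    refine ⟨i, ?_⟩
    rw [Nat.testBit_and, Bool.and_eq_true, Nat.testBit_two_pow]
    exact ⟨h, by simp⟩

lemma sub_iff {a b : Nat} : sub a b = true ↔ ∀ i, a.testBit i = true → b.testBit i = true := by
  unfold sub
  have h2 : Nat.land a b = a &&& b := rfl
  rw [h2]
  constructor
  · intro h i hi
    have h' : a &&& b = a := Nat.eq_of_beq_eq_true h
    rw [← h', Nat.testBit_and, Bool.and_eq_true] at hi
    exact hi.2
  · intro h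
    have h' : a &&& b = a := by
      apply Nat.eq_of_testBit_eq
      intro i
      rw [Nat.testBit_and]
      by_cases hi : a.testBit i = true
      · rw [hi, h i hi]; rfl
      · have : a.testBit i = false := by simpa using hi
        rw [this]; rfl
    rw [h']
    exact Nat.beq_refl a

lemma beq_iff {a b : Nat} : Nat.beq a b = true ↔ a = b :=
  ⟨Nat.eq_of_beq_eq_true, fun h => by rw [h]; exact Nat.beq_refl b⟩

lemma testBit_land (a b i : Nat) : (Nat.land a b).testBit i = (a.testBit i && b.testBit i) :=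
  Nat.testBit_and a b i

lemma testBit_lor (a b i : Nat) : (Nat.lor a b).testBit i = (a.testBit i || b.testBit i) :=
  Nat.testBit_or a b i

lemma testBit_xor' (a b i : Nat) :
    (Nat.xor a b).testBit i = (a.testBit i ^^ b.testBit i) :=
  Nat.testBit_xor a b i

lemma testBit_pow (i j : Nat) : (Nat.pow 2 i).testBit j = decide (i = j) :=
  Nat.testBit_two_pow

lemma testBit_full (k i : Nat) : (Nat.sub (Nat.pow 2 k) 1).testBit i = decide (i < k) :=
  Nat.testBit_two_pow_sub_one k i

/-- the mask of a predicate below `k` -/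
noncomputable def mask (P : Nat → Prop) : Nat → Nat
  | 0 => 0
  | k + 1 => Nat.lor (mask P k) (if P k then Nat.pow 2 k else 0)

lemma testBit_mask (P : Nat → Prop) (k i : Nat) :
    (mask P k).testBit i = true ↔ i < k ∧ P i := by
  induction k with
  | zero => simp [mask]
  | succ k ih =>
    rw [mask, testBit_lor, Bool.or_eq_true, ih]
    by_cases hk : P k
    · rw [if_pos hk, testBit_pow, decide_eq_true_iff]
      constructor
      · rintro (h | h)
        · exact ⟨by omega, h.2⟩
        · subst h; exact ⟨by omega, hk⟩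
      · rintro ⟨h1, h2⟩
        by_cases h3 : k = i
        · right; exact h3
        · left; exact ⟨by omega, h2⟩
    · rw [if_neg hk, Nat.zero_testBit]
      constructor
      · rintro (h | h)
        · exact ⟨by omega, h.2⟩
        · cases h
      · rintro ⟨h1, h2⟩
        left
        refine ⟨?_, h2⟩
        by_contra h3
        have : i = k := by omega
        rw [this] at h2
        exact hk h2

lemma mask_ext {P : Nat → Prop} {k a : Nat} (h : ∀ i, a.testBit i = true ↔ i < k ∧ P i) :
    mask P k = a := by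
  apply Nat.eq_of_testBit_eq
  intro i
  rw [Bool.eq_iff_iff, testBit_mask, h]

section graph

variable {V : Type*} (M : SimpleGraph V) (col : Sym2 V → Bool)

/-- the type of a vertex -/
noncomputable def typ (σ : Nat → V) (k : Nat) (v : V) : Ty :=
  (mask (fun i => CAdj (Mᶜ) col true v (σ i)) k, mask (fun i => CAdj (Mᶜ) col false v (σ i)) k)

/-- non-special vertices -/
def NS (σ : Nat → V) (k : Nat) (v : V) : Prop := ∀ j < k, v ≠ σ j

/-- the graph and the special vertices satisfy the state -/
structure Sat (s : St) (σ : Nat → V) : Prop where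
  inj : ∀ i < s.k, ∀ j < s.k, σ i = σ j → i = j
  sp : ∀ j < s.k, s.sp[j]? = some (typ M col σ s.k (σ j))
  len : s.sp.length = s.k
  ty : ∀ v, NS σ s.k v → typ M col σ s.k v ∈ s.ty
  fs : ∀ f ∈ s.fs, ∃ v, NS σ s.k v ∧ typ M col σ s.k v ∈ f

/-- the vertex set of a side -/
def Mem (k : Nat) (σ : Nat → V) (d : Side) : Set V :=
  {x | (∃ j < k, bit d.X j = true ∧ x = σ j) ∨ (NS σ k x ∧ inL k d (typ M col σ k x) = true)}

/-- distance at most two inside `T` -/
def Close (c : Bool) (T : Set V) (x y : V) : Prop :=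
  x = y ∨ CAdj (Mᶜ) col c x y ∨ ∃ w ∈ T, CAdj (Mᶜ) col c x w ∧ CAdj (Mᶜ) col c w y

variable {M col}

lemma Close.symm {c : Bool} {T : Set V} {x y : V} (h : Close M col c T x y) :
    Close M col c T y x := by
  rcases h with h | h | ⟨w, hw, h1, h2⟩
  · left; exact h.symm
  · right; left; exact h.symm'
  · right; right; exact ⟨w, hw, h2.symm', h1.symm'⟩

lemma bitN {σ : Nat → V} {k : Nat} {v : V} {c : Bool} {i : Nat} :
    (N (typ M col σ k v) c).testBit i = true ↔ i < k ∧ CAdj (Mᶜ) col c v (σ i) := by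
  cases c
  · exact testBit_mask _ _ _
  · exact testBit_mask _ _ _

lemma getD_sp {s : St} {σ : Nat → V} (hS : Sat M col s σ) {j : Nat} (hj : j < s.k) :
    s.sp.getD j (0, 0) = typ M col σ s.k (σ j) := by
  rw [List.getD_eq_getElem?_getD, hS.sp j hj]
  rfl

lemma bit_tag {σ : Nat → V} {k : Nat} {v : V} {i : Nat} :
    (tag k (typ M col σ k v)).testBit i = true ↔
      i < k ∧ ¬ CAdj (Mᶜ) col true v (σ i) ∧ ¬ CAdj (Mᶜ) col false v (σ i) := by
  unfold tag
  rw [testBit_xor', testBit_lor, testBit_full]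
  have h1 := bitN (M := M) (col := col) (σ := σ) (k := k) (v := v) (c := true) (i := i)
  have h2 := bitN (M := M) (col := col) (σ := σ) (k := k) (v := v) (c := false) (i := i)
  simp only [N, if_true, Bool.false_eq_true, if_false] at h1 h2
  by_cases hi : i < k
  · rw [decide_eq_true hi, Bool.true_xor]
    rw [Bool.not_eq_true', Bool.or_eq_false_iff, ← Bool.not_eq_true, ← Bool.not_eq_true, h1, h2]
    simp [hi]
  · have h1' : (typ M col σ k v).1.testBit i = false := by
      rw [← Bool.not_eq_true, h1]; simp [hi]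
    have h2' : (typ M col σ k v).2.testBit i = false := by
      rw [← Bool.not_eq_true, h2]; simp [hi]
    rw [h1', h2', decide_eq_false hi]
    simp [hi]

lemma adj_of_tag (hM : IsPerfectMatchingGraph M) {σ : Nat → V} {k : Nat} {v : V} {i : Nat}
    (hv : NS σ k v) (h : (tag k (typ M col σ k v)).testBit i = true) :
    i < k ∧ M.Adj v (σ i) := by
  rw [bit_tag] at h
  obtain ⟨h1, h2, h3⟩ := h
  refine ⟨h1, ?_⟩
  by_contra hcon
  obtain ⟨w, hw, -⟩ := hM v
  have h4 : σ i ≠ w := by
    intro h4; rw [h4] at hcon; exact hcon hw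
  rcases cadj_or (col := col) (adj_of hM hw (hv i h1).symm h4) true with h | h
  · exact h2 h
  · exact h3 h

lemma tag_of_adj {σ : Nat → V} {k : Nat} {v : V} {i : Nat} (hi : i < k) (h : M.Adj v (σ i)) :
    (tag k (typ M col σ k v)).testBit i = true := by
  rw [bit_tag]
  exact ⟨hi, not_adj h true, not_adj h false⟩

/-- two non-special vertices with the same nonzero tag are equal -/
lemma eq_of_tag (hM : IsPerfectMatchingGraph M) {σ : Nat → V} {k : Nat} {v w : V}
    (hv : NS σ k v) (hw : NS σ k w)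
    (h : tag k (typ M col σ k v) = tag k (typ M col σ k w))
    (h0 : tag k (typ M col σ k v) ≠ 0) : v = w := by
  have hz : nz (tag k (typ M col σ k v)) = true := by
    unfold nz
    have : Nat.beq (tag k (typ M col σ k v)) 0 = false := by
      rw [Bool.eq_false_iff]
      intro h
      exact h0 (Nat.eq_of_beq_eq_true h)
    rw [this]; rfl
  rw [nz_iff] at hz
  obtain ⟨i, hi⟩ := hz
  have h1 := (adj_of_tag hM hv hi).2
  rw [h] at hi
  have h2 := (adj_of_tag hM hw hi).2
  exact (hM (σ i)).unique h1.symm h2.symm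

lemma inL_iff {k : Nat} {d : Side} {t : Ty} : inL k d t = true ↔
    ∃ p ∈ d.Q, (p.1 = 0 ∨ p.1 = tag k t) ∧
      ∀ i, p.2.testBit i = true → (N t d.c).testBit i = true := by
  unfold inL
  rw [List.any_eq_true]
  constructor
  · rintro ⟨p, hp, h⟩
    rw [Bool.and_eq_true, Bool.or_eq_true, beq_iff, beq_iff, sub_iff] at h
    exact ⟨p, hp, h.1, h.2⟩
  · rintro ⟨p, hp, h1, h2⟩
    refine ⟨p, hp, ?_⟩
    rw [Bool.and_eq_true, Bool.or_eq_true, beq_iff, beq_iff, sub_iff]
    exact ⟨h1, h2⟩

/-- two non-special vertices of a side are close -/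
lemma ns_ns (hM : IsPerfectMatchingGraph M) {k : Nat} {σ : Nat → V} {d : Side}
    (hP : pairOK d = true) {v w : V} (hv : NS σ k v) (hw : NS σ k w)
    (hvL : inL k d (typ M col σ k v) = true) (hwL : inL k d (typ M col σ k w) = true) :
    Close M col d.c (Mem M col k σ d) v w := by
  rw [inL_iff] at hvL hwL
  obtain ⟨p, hp, hp1, hp2⟩ := hvL
  obtain ⟨q, hq, hq1, hq2⟩ := hwL
  unfold pairOK at hP
  rw [List.all_eq_true] at hP
  have h := hP p hp
  rw [List.all_eq_true] at h
  have h := h q hq
  rw [Bool.or_eq_true, Bool.and_eq_true, beq_iff] at h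
  rcases h with ⟨h1, h2⟩ | h
  · -- same nonzero tag
    have hp0 : p.1 ≠ 0 := by
      intro h0
      rw [h0] at h2
      cases h2
    have hq0 : q.1 ≠ 0 := by rw [← h1]; exact hp0
    have e1 := hp1.resolve_left hp0
    have e2 := hq1.resolve_left hq0
    left
    exact eq_of_tag hM hv hw (by rw [← e1, ← e2, h1]) (by rw [← e1]; exact hp0)
  · rw [nz_iff] at h
    obtain ⟨l, hl⟩ := h
    rw [testBit_land, testBit_land, Bool.and_eq_true, Bool.and_eq_true] at hl
    obtain ⟨⟨h1, h2⟩, h3⟩ := hl
    have e1 := hp2 l h1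
    have e2 := hq2 l h2
    rw [bitN] at e1 e2
    right; right
    refine ⟨σ l, Or.inl ⟨l, e1.1, by rw [bit_eq]; exact h3, rfl⟩, e1.2, e2.2.symm'⟩

/-- a special and a non-special vertex of a side are close -/
lemma sp_ns {s : St} {σ : Nat → V} (hS : Sat M col s σ) {d : Side} {j : Nat} (hj : j < s.k)
    (hP : specOK s d j = true) (hjX : bit d.X j = true) {v : V} (_hv : NS σ s.k v)
    (hvL : inL s.k d (typ M col σ s.k v) = true) :
    Close M col d.c (Mem M col s.k σ d) (σ j) v := by
  rw [inL_iff] at hvL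
  obtain ⟨p, hp, hp1, hp2⟩ := hvL
  unfold specOK at hP
  rw [hjX, getD_sp hS hj] at hP
  simp only [Bool.not_true, Bool.false_or] at hP
  rw [List.all_eq_true] at hP
  have h := hP p hp
  rw [nz_iff] at h
  obtain ⟨l, hl⟩ := h
  rw [testBit_land, testBit_land, testBit_lor, Bool.and_eq_true, Bool.and_eq_true,
    Bool.or_eq_true, testBit_pow, decide_eq_true_iff, bitN] at hl
  obtain ⟨⟨h1, h2⟩, h3⟩ := hl
  have e1 := hp2 l h1
  rw [bitN] at e1
  rcases h3 with h3 | h3
  · subst h3
    right; left
    exact e1.2.symm'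
  · right; right
    exact ⟨σ l, Or.inl ⟨l, e1.1, by rw [bit_eq]; exact h2, rfl⟩, h3.2, e1.2.symm'⟩

/-- two special vertices of a side are close -/
lemma sp_sp {s : St} {σ : Nat → V} (hS : Sat M col s σ) {d : Side} {i j : Nat} (hi : i < s.k)
    (hj : j < s.k) (hP : needOK s d i j = true) (hiX : bit d.X i = true)
    (hjX : bit d.X j = true) :
    Close M col d.c (Mem M col s.k σ d) (σ i) (σ j) := by
  unfold needOK at hP
  rw [hiX, hjX, getD_sp hS hi, getD_sp hS hj] at hP
  simp only [Bool.not_true, Bool.false_or] at hP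
  rw [Bool.or_eq_true, Bool.or_eq_true] at hP
  rcases hP with (h | h) | h
  · rw [bit_eq, bitN] at h
    right; left; exact h.2
  · rw [nz_iff] at h
    obtain ⟨l, hl⟩ := h
    rw [testBit_land, testBit_land, Bool.and_eq_true, Bool.and_eq_true, bitN, bitN] at hl
    obtain ⟨⟨h1, h2⟩, h3⟩ := hl
    right; right
    exact ⟨σ l, Or.inl ⟨l, h1.1, by rw [bit_eq]; exact h3, rfl⟩, h1.2, h2.2.symm'⟩
  · rw [List.any_eq_true] at h
    obtain ⟨f, hf, h⟩ := h
    rw [List.all_eq_true] at h
    obtain ⟨v, hv1, hv2⟩ := hS.fs f hf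
    have h := h _ hv2
    rw [Bool.and_eq_true, Bool.and_eq_true, bit_eq, bit_eq, bitN, bitN] at h
    right; right
    exact ⟨v, Or.inr ⟨hv1, h.2⟩, h.1.1.2.symm', h.1.2.2⟩

end graph

end PoolAgent.MP9fa5c3.Cert
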