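import Pool.Agent.W_MP_9fa5c3_co.Sound1

/-!
# MP_9fa5c3_co : soundness of the checker, part 2

Covers from sides; the extension of a state by a new special vertex; the free facts.
-/

namespace PoolAgent.MP9fa5c3.Cert

open Classical

variable {V : Type*} {M : SimpleGraph V} {col : Sym2 V → Bool}

lemma cover_of_sets [Nonempty V] {S T : Set V} {c d : Bool}
    (h1 : ∀ x ∈ S, ∀ y ∈ S, Close M col c S x y) (h2 : ∀ x ∈ T, ∀ y ∈ T, Close M col d T x y)
    (h : ∀ z, z ∈ S ∨ z ∈ T) : HasCover (Mᶜ) col 2 2 := by
  obtain ⟨v⟩ := ‹Nonempty V›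
  have hv : ∀ (e : Bool), ∀ x ∈ ({v} : Set V), ∀ y ∈ ({v} : Set V), x = y ∨
      CAdj (Mᶜ) col e x y ∨ ∃ w ∈ ({v} : Set V), CAdj (Mᶜ) col e x w ∧ CAdj (Mᶜ) col e w y := by
    intro e x hx y hy
    left
    rw [Set.mem_singleton_iff] at hx hy
    rw [hx, hy]
  by_cases hS : S.Nonempty
  · by_cases hT : T.Nonempty
    · exact cover_two hS hT h1 h2 h
    · refine cover_two (c := c) (d := d) hS (Set.singleton_nonempty v) h1 (hv d) ?_
      intro z
      left
      rcases h z with h | h
      · exact h
      · exact absurd ⟨z, h⟩ hT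
  · refine cover_two (c := c) (d := d) (Set.singleton_nonempty v) ⟨v, ?_⟩ (hv c) h2 ?_
    · rcases h v with h | h
      · exact absurd ⟨v, h⟩ hS
      · exact h
    · intro z
      right
      rcases h z with h | h
      · exact absurd ⟨z, h⟩ hS
      · exact h

lemma side_good (hM : IsPerfectMatchingGraph M) {s : St} {σ : Nat → V} {d : Side}
    (hP : pairOK d = true)
    (hJ : ∀ j < s.k, bit d.X j = true → ∀ v, NS σ s.k v →
      inL s.k d (typ M col σ s.k v) = true → Close M col d.c (Mem M col s.k σ d) (σ j) v)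
    (hN : ∀ i < s.k, ∀ j < s.k, i < j → bit d.X i = true → bit d.X j = true →
      Close M col d.c (Mem M col s.k σ d) (σ i) (σ j)) :
    ∀ x ∈ Mem M col s.k σ d, ∀ y ∈ Mem M col s.k σ d,
      Close M col d.c (Mem M col s.k σ d) x y := by
  intro x hx y hy
  rcases id hx with ⟨i, hi, hiX, rfl⟩ | ⟨hx1, hx2⟩
  · rcases id hy with ⟨j, hj, hjX, rfl⟩ | ⟨hy1, hy2⟩
    · rcases lt_trichotomy i j with h | h | h
      · exact hN i hi j hj h hiX hjX
      · rw [h]; left; rfl
      · exact (hN j hj i hi h hjX hiX).symm
    · exact hJ i hi hiX y hy1 hy2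
  · rcases id hy with ⟨j, hj, hjX, rfl⟩ | ⟨hy1, hy2⟩
    · exact (hJ j hj hjX x hx1 hx2).symm
    · exact ns_ns hM hP hx1 hy1 hx2 hy2

lemma specs_get {s : St} {d : Side} {e j : Nat} (h : specsOK s d e = true) (hj : j < s.k)
    (hje : j ≠ e) : specOK s d j = true := by
  unfold specsOK at h
  rw [List.all_eq_true] at h
  have h := h j (List.mem_range.mpr hj)
  rw [Bool.or_eq_true, beq_iff] at h
  exact h.resolve_left hje

lemma needs_get {s : St} {d : Side} {i0 j0 i j : Nat} (h : needsOK s d i0 j0 = true)
    (hi : i < s.k) (hj : j < s.k) (hij : i < j) (hne : ¬ (i = i0 ∧ j = j0)) :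
    needOK s d i j = true := by
  unfold needsOK at h
  rw [List.all_eq_true] at h
  have h := h i (List.mem_range.mpr hi)
  rw [List.all_eq_true] at h
  have h := h j (List.mem_range.mpr hj)
  rw [Bool.or_eq_true, Bool.or_eq_true, Bool.and_eq_true, beq_iff, beq_iff] at h
  rcases h with (h | h) | h
  · exact absurd (Nat.le_of_ble_eq_true h) (by omega)
  · exact absurd h hne
  · exact h

/-- the common cover lemma -/
lemma base_cover [Nonempty V] (hM : IsPerfectMatchingGraph M) {s : St} {σ : Nat → V}
    (hS : Sat M col s σ) {A B : Side} {e i j : Nat} (hb : base s A B e i j = true)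
    (hlab : ∀ v, NS σ s.k v → inL s.k A (typ M col σ s.k v) = true ∨
      inL s.k B (typ M col σ s.k v) = true)
    (hexc : e < s.k → bit A.X e = true → ∀ v, NS σ s.k v →
      inL s.k A (typ M col σ s.k v) = true → Close M col A.c (Mem M col s.k σ A) (σ e) v)
    (hneed : i < s.k → j < s.k → bit A.X i = true → bit A.X j = true →
      Close M col A.c (Mem M col s.k σ A) (σ i) (σ j)) : HasCover (Mᶜ) col 2 2 := by
  unfold base at hb
  simp only [Bool.and_eq_true] at hb
  obtain ⟨⟨⟨⟨⟨⟨h1, h2⟩, h3⟩, h4⟩, h5⟩, h6⟩, h7⟩ := hb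
  refine cover_of_sets (S := Mem M col s.k σ A) (T := Mem M col s.k σ B) (c := A.c) (d := B.c)
    (side_good hM h2 ?_ ?_) (side_good hM h3 ?_ ?_) ?_
  · intro l hl hlX v hv hvL
    by_cases hle : l = e
    · subst hle
      exact hexc hl hlX v hv hvL
    · exact sp_ns hS hl (specs_get h4 hl hle) hlX hv hvL
  · intro l hl m hm hlm hlX hmX
    by_cases hc : l = i ∧ m = j
    · obtain ⟨rfl, rfl⟩ := hc
      exact hneed hl hm hlX hmX
    · exact sp_sp hS hl hm (needs_get h6 hl hm hlm hc) hlX hmX
  · intro l hl hlX v hv hvL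
    exact sp_ns hS hl (specs_get h5 hl (by omega)) hlX hv hvL
  · intro l hl m hm hlm hlX hmX
    exact sp_sp hS hl hm (needs_get h7 hl hm hlm (by omega)) hlX hmX
  · intro z
    by_cases hz : NS σ s.k z
    · rcases hlab z hz with h | h
      · left; exact Or.inr ⟨hz, h⟩
      · right; exact Or.inr ⟨hz, h⟩
    · unfold NS at hz
      push Not at hz
      obtain ⟨l, hl, rfl⟩ := hz
      unfold fullOK at h1
      rw [beq_iff] at h1
      have h : (Nat.lor A.X B.X).testBit l = true := by
        rw [h1, testBit_full]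
        simpa using hl
      rw [testBit_lor, Bool.or_eq_true, ← bit_eq, ← bit_eq] at h
      rcases h with h | h
      · left; exact Or.inl ⟨l, hl, h, rfl⟩
      · right; exact Or.inl ⟨l, hl, h, rfl⟩

section extension

variable {σ : Nat → V} {k : Nat} {v : V}

lemma typ_update_of_lt (u : V) :
    typ M col (Function.update σ k v) k u = typ M col σ k u := by
  have h : ∀ (c : Bool), mask (fun i => CAdj (Mᶜ) col c u (Function.update σ k v i)) k =
      mask (fun i => CAdj (Mᶜ) col c u (σ i)) k := by
    intro c
    apply mask_ext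
    intro i
    rw [testBit_mask]
    constructor
    · rintro ⟨h1, h2⟩
      refine ⟨h1, ?_⟩
      rw [Function.update_of_ne (by omega)]
      exact h2
    · rintro ⟨h1, h2⟩
      refine ⟨h1, ?_⟩
      rw [Function.update_of_ne (by omega)] at h2
      exact h2
  unfold typ
  rw [h, h]

lemma typ_succ (u : V) :
    typ M col (Function.update σ k v) (k + 1) u =
      (Nat.lor (typ M col σ k u).1 (if CAdj (Mᶜ) col true u v then Nat.pow 2 k else 0),
       Nat.lor (typ M col σ k u).2 (if CAdj (Mᶜ) col false u v then Nat.pow 2 k else 0)) := by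
  have h := typ_update_of_lt (M := M) (col := col) (σ := σ) (k := k) (v := v) u
  unfold typ at h ⊢
  rw [Prod.mk.injEq] at h
  rw [mask, mask, h.1, h.2, Function.update_self]

lemma ns_update {u : V} : NS (Function.update σ k v) (k + 1) u ↔ NS σ k u ∧ u ≠ v := by
  constructor
  · intro h
    refine ⟨?_, ?_⟩
    · intro j hj
      have := h j (by omega)
      rw [Function.update_of_ne (by omega)] at this
      exact this
    · have := h k (by omega)
      rw [Function.update_self] at this
      exact this
  · rintro ⟨h1, h2⟩ j hj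
    by_cases hjk : j = k
    · rw [hjk, Function.update_self]; exact h2
    · rw [Function.update_of_ne hjk]
      exact h1 j (by omega)

lemma lor_zero' (a : Nat) : Nat.lor a 0 = a := Nat.or_zero a

lemma nz_eq_false {a : Nat} : nz a = false ↔ a = 0 := by
  unfold nz
  rw [Bool.not_eq_false', beq_iff]

lemma typ_red {u : V} (h : CAdj (Mᶜ) col true u v) :
    typ M col (Function.update σ k v) (k + 1) u =
      (Nat.lor (typ M col σ k u).1 (Nat.pow 2 k), (typ M col σ k u).2) := by
  have h' : ¬ CAdj (Mᶜ) col false u v := not_both h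
  rw [typ_succ, if_pos h, if_neg h', lor_zero']

lemma typ_blue {u : V} (h : CAdj (Mᶜ) col false u v) :
    typ M col (Function.update σ k v) (k + 1) u =
      ((typ M col σ k u).1, Nat.lor (typ M col σ k u).2 (Nat.pow 2 k)) := by
  have h' : ¬ CAdj (Mᶜ) col true u v := not_both h
  rw [typ_succ, if_pos h, if_neg h', lor_zero']

lemma typ_none {u : V} (h1 : ¬ CAdj (Mᶜ) col true u v) (h2 : ¬ CAdj (Mᶜ) col false u v) :
    typ M col (Function.update σ k v) (k + 1) u = typ M col σ k u := by
  rw [typ_succ, if_neg h1, if_neg h2, lor_zero', lor_zero']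

lemma ext_mem (hM : IsPerfectMatchingGraph M) (hv : NS σ k v) {u : V} (hu : NS σ k u)
    (huv : u ≠ v) :
    typ M col (Function.update σ k v) (k + 1) u ∈
      extTy k (typ M col σ k v) (typ M col σ k u) := by
  by_cases hadj : M.Adj u v
  · -- partners
    have hv0 : tag k (typ M col σ k v) = 0 := by
      by_contra h0
      have h0' : nz (tag k (typ M col σ k v)) = true := by
        rw [← Bool.not_eq_false, nz_eq_false]; exact h0
      rw [nz_iff] at h0'
      obtain ⟨i, hi⟩ := h0'
      obtain ⟨h1, h2⟩ := adj_of_tag hM hv hi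
      exact hu i h1 ((hM v).unique hadj.symm h2)
    have hu0 : tag k (typ M col σ k u) = 0 := by
      by_contra h0
      have h0' : nz (tag k (typ M col σ k u)) = true := by
        rw [← Bool.not_eq_false, nz_eq_false]; exact h0
      rw [nz_iff] at h0'
      obtain ⟨i, hi⟩ := h0'
      obtain ⟨h1, h2⟩ := adj_of_tag hM hu hi
      exact hv i h1 ((hM u).unique hadj h2)
    have e1 : nz (tag k (typ M col σ k v)) = false := nz_eq_false.mpr hv0
    have e2 : nz (tag k (typ M col σ k u)) = false := nz_eq_false.mpr hu0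
    rw [typ_none (not_adj hadj true) (not_adj hadj false)]
    unfold extTy
    rw [e1, e2]
    simp
  · obtain ⟨w, hw, -⟩ := hM u
    have hvw : v ≠ w := by
      intro h; rw [h] at hadj; exact hadj hw
    have hc := cadj_or (col := col) (adj_of hM hw huv.symm hvw) true
    have hin : typ M col (Function.update σ k v) (k + 1) u ∈
        [(Nat.lor (typ M col σ k u).1 (Nat.pow 2 k), (typ M col σ k u).2),
          ((typ M col σ k u).1, Nat.lor (typ M col σ k u).2 (Nat.pow 2 k))] := by
      rcases hc with h | h
      · rw [typ_red h]; simp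
      · rw [typ_blue h]; simp
    unfold extTy
    by_cases e1 : nz (tag k (typ M col σ k v)) = true
    · rw [if_pos e1]
      have e3 : ¬ Nat.beq (tag k (typ M col σ k u)) (tag k (typ M col σ k v)) = true := by
        rw [beq_iff]
        intro h
        apply huv
        refine (eq_of_tag hM hv hu h.symm ?_).symm
        intro h0
        rw [h0] at e1
        cases e1
      rw [if_neg e3]
      exact hin
    · rw [if_neg e1]
      by_cases e2 : nz (tag k (typ M col σ k u)) = true
      · rw [if_pos e2]; exact hin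
      · rw [if_neg e2]
        simp only [List.mem_cons, List.not_mem_nil, or_false] at hin ⊢
        rcases hin with h | h
        · left; exact h
        · right; left; exact h

lemma extSp_get (k : Nat) (t : Ty) : ∀ (l : List Ty) (i j : Nat) (p : Ty), l[j]? = some p →
    (extSp k t i l)[j]? = some (if bit t.1 (i + j) then Nat.lor p.1 (Nat.pow 2 k) else p.1,
      if bit t.2 (i + j) then Nat.lor p.2 (Nat.pow 2 k) else p.2)
  | [], i, j, p, h => by simp at h
  | q :: l, i, 0, p, h => by
      simp only [List.getElem?_cons_zero, Option.some.injEq] at h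
      subst h
      simp [extSp]
  | q :: l, i, j + 1, p, h => by
      rw [List.getElem?_cons_succ] at h
      rw [extSp, List.getElem?_cons_succ, extSp_get k t l (i + 1) j p h]
      have : i + 1 + j = i + (j + 1) := by omega
      rw [this]

lemma extSp_last (k : Nat) (t : Ty) : ∀ (l : List Ty) (i : Nat),
    (extSp k t i l)[l.length]? = some t
  | [], i => by simp [extSp]
  | q :: l, i => by
      rw [extSp, List.length_cons, List.getElem?_cons_succ]
      exact extSp_last k t l (i + 1)

lemma extSp_length (k : Nat) (t : Ty) : ∀ (l : List Ty) (i : Nat),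
    (extSp k t i l).length = l.length + 1
  | [], i => by simp [extSp]
  | q :: l, i => by
      rw [extSp, List.length_cons, List.length_cons, extSp_length k t l (i + 1)]

end extension

/-- the extension of a state -/
lemma sat_ext (hM : IsPerfectMatchingGraph M) {s : St} {σ : Nat → V} (hS : Sat M col s σ)
    {v : V} (hv : NS σ s.k v) :
    Sat M col (ext s (typ M col σ s.k v)) (Function.update σ s.k v) := by
  refine ⟨?_, ?_, ?_, ?_, ?_⟩
  · intro i hi j hj h
    have hi' : i < s.k + 1 := hi
    have hj' : j < s.k + 1 := hj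
    by_cases h1 : i = s.k <;> by_cases h2 : j = s.k
    · rw [h1, h2]
    · rw [h1, Function.update_self, Function.update_of_ne h2] at h
      exact absurd h (hv j (by omega))
    · rw [h2, Function.update_self, Function.update_of_ne h1] at h
      exact absurd h.symm (hv i (by omega))
    · rw [Function.update_of_ne h1, Function.update_of_ne h2] at h
      exact hS.inj i (by omega) j (by omega) h
  · intro j hj
    have hj' : j < s.k + 1 := hj
    by_cases h1 : j = s.k
    · rw [h1, Function.update_self]
      change (extSp s.k (typ M col σ s.k v) 0 s.sp)[s.k]? = _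
      have h2 := extSp_last s.k (typ M col σ s.k v) s.sp 0
      rw [hS.len] at h2
      rw [h2]
      have h3 : ∀ c, ¬ CAdj (Mᶜ) col c v v := fun c h => h.ne rfl
      change _ = some (typ M col (Function.update σ s.k v) (s.k + 1) v)
      rw [typ_none (h3 true) (h3 false)]
    · have hjk : j < s.k := by omega
      rw [Function.update_of_ne h1]
      change (extSp s.k (typ M col σ s.k v) 0 s.sp)[j]? = _
      rw [extSp_get s.k (typ M col σ s.k v) s.sp 0 j _ (hS.sp j hjk)]
      change _ = some (typ M col (Function.update σ s.k v) (s.k + 1) (σ j))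
      rw [typ_succ, Nat.zero_add]
      have e1 : bit (typ M col σ s.k v).1 j = true ↔ CAdj (Mᶜ) col true (σ j) v := by
        rw [bit_eq]
        have := bitN (M := M) (col := col) (σ := σ) (k := s.k) (v := v) (c := true) (i := j)
        simp only [N, if_true] at this
        rw [this]
        exact ⟨fun h => h.2.symm', fun h => ⟨hjk, h.symm'⟩⟩
      have e2 : bit (typ M col σ s.k v).2 j = true ↔ CAdj (Mᶜ) col false (σ j) v := by
        rw [bit_eq]
        have := bitN (M := M) (col := col) (σ := σ) (k := s.k) (v := v) (c := false) (i := j)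
        simp only [N, Bool.false_eq_true, if_false] at this
        rw [this]
        exact ⟨fun h => h.2.symm', fun h => ⟨hjk, h.symm'⟩⟩
      congr 1
      rw [Prod.mk.injEq]
      constructor
      · by_cases h : CAdj (Mᶜ) col true (σ j) v
        · rw [if_pos (e1.mpr h), if_pos h]
        · rw [if_neg (fun h' => h (e1.mp h')), if_neg h, lor_zero']
      · by_cases h : CAdj (Mᶜ) col false (σ j) v
        · rw [if_pos (e2.mpr h), if_pos h]
        · rw [if_neg (fun h' => h (e2.mp h')), if_neg h, lor_zero']
  · change (extSp s.k (typ M col σ s.k v) 0 s.sp).length = s.k + 1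
    rw [extSp_length, hS.len]
  · intro u hu
    have hu' := ns_update.mp hu
    change typ M col (Function.update σ s.k v) (s.k + 1) u ∈ s.ty.flatMap _
    rw [List.mem_flatMap]
    exact ⟨_, hS.ty u hu'.1, ext_mem hM hv hu'.1 hu'.2⟩
  · intro f hf
    change f ∈ (s.fs.filter fun f => !(f.any (tyEq (typ M col σ s.k v)))).map
      (fun f => f.flatMap (extTy s.k (typ M col σ s.k v))) at hf
    rw [List.mem_map] at hf
    obtain ⟨g, hg, rfl⟩ := hf
    rw [List.mem_filter] at hg
    obtain ⟨hg1, hg2⟩ := hg
    obtain ⟨u, hu1, hu2⟩ := hS.fs g hg1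
    have huv : u ≠ v := by
      rintro rfl
      rw [Bool.not_eq_true', List.any_eq_false] at hg2
      apply hg2 _ hu2
      unfold tyEq
      rw [Bool.and_eq_true, beq_iff, beq_iff]
      exact ⟨rfl, rfl⟩
    refine ⟨u, ns_update.mpr ⟨hu1, huv⟩, ?_⟩
    rw [List.mem_flatMap]
    exact ⟨_, hu2, ext_mem hM hv hu1 huv⟩

lemma sat_restrict {s : St} {σ : Nat → V} (hS : Sat M col s σ) {p : Ty → Bool}
    (hp : ∀ v, NS σ s.k v → p (typ M col σ s.k v) = true) : Sat M col (restrict s p) σ := by
  refine ⟨hS.inj, hS.sp, hS.len, ?_, ?_⟩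
  · intro v hv
    change typ M col σ s.k v ∈ s.ty.filter p
    rw [List.mem_filter]
    exact ⟨hS.ty v hv, hp v hv⟩
  · intro f hf
    change f ∈ s.fs.map fun f => f.filter p at hf
    rw [List.mem_map] at hf
    obtain ⟨g, hg, rfl⟩ := hf
    obtain ⟨v, hv1, hv2⟩ := hS.fs g hg
    refine ⟨v, hv1, ?_⟩
    rw [List.mem_filter]
    exact ⟨hv2, hp v hv1⟩

lemma sat_addFact {s : St} {σ : Nat → V} (hS : Sat M col s σ) {f : List Ty}
    (hf : ∃ v, NS σ s.k v ∧ typ M col σ s.k v ∈ f) : Sat M col (addFact s f) σ := by
  refine ⟨hS.inj, hS.sp, hS.len, hS.ty, ?_⟩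
  intro g hg
  change g ∈ f :: s.fs at hg
  rw [List.mem_cons] at hg
  rcases hg with rfl | hg
  · exact hf
  · exact hS.fs g hg

end PoolAgent.MP9fa5c3.Cert
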