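import Pool.Agent.W_MP_9fa5c3_co.Sound2

/-!
# MP_9fa5c3_co : soundness of the checker, part 3

The free facts, the state after a conflict, and the soundness theorem.
-/

namespace PoolAgent.MP9fa5c3.Cert

open Classical

variable {V : Type*} {M : SimpleGraph V} {col : Sym2 V → Bool}

lemma land_mask {σ : Nat → V} {k : Nat} {v u : V} (c : Bool) :
    Nat.land (N (typ M col (Function.update σ k v) (k + 1) u) c) (Nat.sub (Nat.pow 2 k) 1) =
      N (typ M col σ k u) c := by
  apply Nat.eq_of_testBit_eq
  intro j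
  rw [Bool.eq_iff_iff, testBit_land, testBit_full, Bool.and_eq_true, decide_eq_true_iff, bitN,
    bitN]
  constructor
  · rintro ⟨⟨_, h1⟩, h2⟩
    rw [Function.update_of_ne (by omega)] at h1
    exact ⟨h2, h1⟩
  · rintro ⟨h1, h2⟩
    refine ⟨⟨by omega, ?_⟩, h1⟩
    rw [Function.update_of_ne (by omega)]
    exact h2

lemma old_typ {σ : Nat → V} {k : Nat} {v u : V} :
    (Nat.land (typ M col (Function.update σ k v) (k + 1) u).1 (Nat.sub (Nat.pow 2 k) 1),
      Nat.land (typ M col (Function.update σ k v) (k + 1) u).2 (Nat.sub (Nat.pow 2 k) 1)) =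
      typ M col σ k u := by
  have h1 := land_mask (M := M) (col := col) (σ := σ) (k := k) (v := v) (u := u) true
  have h2 := land_mask (M := M) (col := col) (σ := σ) (k := k) (v := v) (u := u) false
  simp only [N, if_true, Bool.false_eq_true, if_false] at h1 h2
  rw [h1, h2]

/-- the state after a conflict -/
lemma sat_violChild (hM : IsPerfectMatchingGraph M) {s : St} {σ : Nat → V}
    (hS : Sat M col s σ) {d : Side} {i : Nat} (hi : i < s.k) {v : V} (hv : NS σ s.k v)
    (hc : ¬ Close M col d.c (Mem M col s.k σ d) (σ i) v) :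
    Sat M col (violChild s d i (typ M col σ s.k v)) (Function.update σ s.k v) := by
  refine sat_restrict (sat_ext hM hS hv) ?_
  intro u hu
  have hu' := ns_update.mp hu
  change (!(forb s.k d i (typ M col (Function.update σ s.k v) (s.k + 1) u))) = true
  rw [Bool.not_eq_true', ← Bool.not_eq_true]
  intro hf
  apply hc
  unfold forb at hf
  rw [old_typ, Bool.and_eq_true, Bool.and_eq_true, bit_eq, bit_eq, bitN, bitN,
    Function.update_self, Function.update_of_ne (by omega)] at hf
  obtain ⟨⟨-, h1⟩, h2, -, h3⟩ := hf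
  right; right
  exact ⟨u, Or.inr ⟨hu'.1, h2⟩, h3.symm', h1⟩

/-- the type of the partner of a special vertex -/
lemma tag_partner (hM : IsPerfectMatchingGraph M) {s : St} {σ : Nat → V}
    (hS : Sat M col s σ) {i : Nat} (hi : i < s.k) {w : V} (hw : M.Adj (σ i) w)
    (hns : NS σ s.k w) : tag s.k (typ M col σ s.k w) = Nat.pow 2 i := by
  apply Nat.eq_of_testBit_eq
  intro j
  rw [Bool.eq_iff_iff, testBit_pow, decide_eq_true_iff]
  constructor
  · intro h
    obtain ⟨h1, h2⟩ := adj_of_tag hM hns h
    exact hS.inj i hi j h1 ((hM w).unique hw.symm h2)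
  · intro h
    subst h
    exact tag_of_adj hi hw.symm

/-- the partner of a special vertex which is joined to all other special vertices -/
lemma partner_ns {s : St} {σ : Nat → V}
    (hS : Sat M col s σ) {i : Nat} (hi : i < s.k)
    (hfull : Nat.lor (Nat.lor (s.sp.getD i (0, 0)).1 (s.sp.getD i (0, 0)).2) (Nat.pow 2 i) =
      Nat.sub (Nat.pow 2 s.k) 1) {w : V} (hw : M.Adj (σ i) w) : NS σ s.k w := by
  intro j hj h
  have h1 : (Nat.sub (Nat.pow 2 s.k) 1).testBit j = true := by
    rw [testBit_full, decide_eq_true hj]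
  rw [← hfull, testBit_lor, testBit_lor, Bool.or_eq_true, Bool.or_eq_true, testBit_pow,
    decide_eq_true_iff, getD_sp hS hi] at h1
  have e1 := bitN (M := M) (col := col) (σ := σ) (k := s.k) (v := σ i) (c := true) (i := j)
  have e2 := bitN (M := M) (col := col) (σ := σ) (k := s.k) (v := σ i) (c := false) (i := j)
  simp only [N, if_true, Bool.false_eq_true, if_false] at e1 e2
  rw [e1, e2] at h1
  rw [h] at hw
  rcases h1 with (h1 | h1) | h1
  · exact not_adj hw true h1.2
  · exact not_adj hw false h1.2
  · rw [h1] at hw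
    exact hw.ne rfl

lemma star_fact (hno : ¬ HasCover (Mᶜ) col 2 2) {s : St} {σ : Nat → V} (hS : Sat M col s σ)
    {p q : Nat} (hp : p < s.k) (hq : q < s.k) {c : Bool} {f : List Ty}
    (hf : f ∈ starFact s p q c) : ∃ v, NS σ s.k v ∧ typ M col σ s.k v ∈ f := by
  unfold starFact at hf
  split_ifs at hf with h
  · simp at hf
  rw [List.mem_singleton] at hf
  subst hf
  by_contra hcon
  push Not at hcon
  apply hno
  refine cover_stars (v := σ p) (w := σ q) (c := c) (d := c) ?_
  intro z
  by_cases hz : NS σ s.k z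
  · have h1 := hcon z hz
    rw [List.mem_filter] at h1
    have h2 : ¬ ((!(bit (N (typ M col σ s.k z) c) p) && !(bit (N (typ M col σ s.k z) c) q))
        = true) := fun h' => h1 ⟨hS.ty z hz, h'⟩
    rw [Bool.and_eq_true, Bool.not_eq_true', Bool.not_eq_true', ← Bool.not_eq_true,
      ← Bool.not_eq_true, bit_eq, bit_eq, bitN, bitN, not_and_or, not_not, not_not] at h2
    rcases h2 with h2 | h2
    · left; right; exact h2.2.symm'
    · right; right; exact h2.2.symm'
  · unfold NS at hz
    push Not at hz
    obtain ⟨l, hl, rfl⟩ := hz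
    rw [Bool.not_eq_true, List.any_eq_false] at h
    have h1 := h l (List.mem_range.mpr hl)
    rw [getD_sp hS hp, getD_sp hS hq] at h1
    simp only [Bool.and_eq_true, Bool.not_eq_true', bit_eq] at h1
    by_cases e1 : l = p
    · left; left; rw [e1]
    by_cases e2 : l = q
    · right; left; rw [e2]
    by_cases e3 : CAdj (Mᶜ) col c (σ p) (σ l)
    · left; right; exact e3
    by_cases e4 : CAdj (Mᶜ) col c (σ q) (σ l)
    · right; right; exact e4
    exfalso
    apply h1
    refine ⟨⟨⟨?_, ?_⟩, ?_⟩, ?_⟩
    · rw [← Bool.not_eq_true, beq_iff]; exact e1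
    · rw [← Bool.not_eq_true, beq_iff]; exact e2
    · rw [← Bool.not_eq_true, bitN]; exact fun h => e3 h.2
    · rw [← Bool.not_eq_true, bitN]; exact fun h => e4 h.2

lemma part_fact (hM : IsPerfectMatchingGraph M) {s : St} {σ : Nat → V} (hS : Sat M col s σ)
    {i : Nat} (hi : i < s.k) {f : List Ty} (hf : f ∈ partFact s i) :
    ∃ v, NS σ s.k v ∧ typ M col σ s.k v ∈ f := by
  unfold partFact at hf
  split_ifs at hf with h
  · rw [List.mem_singleton] at hf
    subst hf
    rw [beq_iff] at h
    obtain ⟨w, hw, -⟩ := hM (σ i)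
    have hns := partner_ns hS hi h hw
    refine ⟨w, hns, ?_⟩
    rw [List.mem_filter]
    exact ⟨hS.ty w hns, by rw [beq_iff]; exact tag_partner hM hS hi hw hns⟩
  · simp at hf

/-- the free facts hold -/
lemma sat_fresh (hM : IsPerfectMatchingGraph M) (hno : ¬ HasCover (Mᶜ) col 2 2) {s : St}
    {σ : Nat → V} (hS : Sat M col s σ) : Sat M col (fresh s) σ := by
  refine ⟨hS.inj, hS.sp, hS.len, hS.ty, ?_⟩
  intro f hf
  change f ∈ s.fs ++ ((List.range s.k).flatMap fun p => (List.range p).flatMap fun q =>
      starFact s p q true ++ starFact s p q false) ++ (List.range s.k).flatMap (partFact s) at hf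
  rw [List.mem_append, List.mem_append] at hf
  rcases hf with (hf | hf) | hf
  · exact hS.fs f hf
  · rw [List.mem_flatMap] at hf
    obtain ⟨p, hp, hf⟩ := hf
    rw [List.mem_flatMap] at hf
    obtain ⟨q, hq, hf⟩ := hf
    rw [List.mem_range] at hp hq
    rw [List.mem_append] at hf
    rcases hf with hf | hf
    · exact star_fact hno hS hp (by omega) hf
    · exact star_fact hno hS hp (by omega) hf
  · rw [List.mem_flatMap] at hf
    obtain ⟨i, hi, hf⟩ := hf
    exact part_fact hM hS (List.mem_range.mp hi) hf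

lemma lab_get {s : St} {A B : Side} {σ : Nat → V} (hS : Sat M col s σ)
    (h : labOK s A B = true) (v : V) (hv : NS σ s.k v) :
    inL s.k A (typ M col σ s.k v) = true ∨ inL s.k B (typ M col σ s.k v) = true := by
  unfold labOK at h
  rw [List.all_eq_true] at h
  have h1 := h _ (hS.ty v hv)
  rw [Bool.or_eq_true] at h1
  exact h1

/-- a non-special vertex which is far from the special vertex `i` conflicts with it -/
lemma violates_of {s : St} {d : Side} {σ : Nat → V} (hS : Sat M col s σ) {i : Nat}
    (hi : i < s.k) {v : V} (hL : inL s.k d (typ M col σ s.k v) = true)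
    (hc : ¬ Close M col d.c (Mem M col s.k σ d) (σ i) v) :
    violates s d i (typ M col σ s.k v) = true := by
  unfold violates
  rw [hL, Bool.true_and, Bool.not_eq_true', ← Bool.not_eq_true, nz_iff]
  rintro ⟨l, hl⟩
  apply hc
  rw [getD_sp hS hi, testBit_land, testBit_land, testBit_lor, Bool.and_eq_true,
    Bool.and_eq_true, Bool.or_eq_true, testBit_pow, decide_eq_true_iff, bitN, bitN] at hl
  obtain ⟨⟨h1, h2⟩, h3⟩ := hl
  rcases h3 with h3 | h3
  · subst h3
    right; left
    exact h1.2.symm'
  · right; right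
    exact ⟨σ l, Or.inl ⟨l, h1.1, by rw [bit_eq]; exact h2, rfl⟩, h3.2, h1.2.symm'⟩

/-- soundness of the checker -/
theorem check_sound [Nonempty V] (hM : IsPerfectMatchingGraph M)
    (hno : ¬ HasCover (Mᶜ) col 2 2) (T : Tree) :
    (∀ s, check T (.one s) = true → ∀ σ : Nat → V, ¬ Sat M col s σ) ∧
      (∀ l, check T (.many l) = true → ∀ s ∈ l, ∀ σ : Nat → V, ¬ Sat M col s σ) := by
  induction T with
  | leaf A B =>
    refine ⟨?_, fun l h => by simp [check] at h⟩
    intro s h σ hS
    simp only [check, Bool.and_eq_true] at h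
    exact hno (base_cover hM hS h.1 (lab_get hS h.2) (fun h' => absurd h' (lt_irrefl _))
      (fun h' => absurd h' (lt_irrefl _)))
  | exU A B t ih =>
    refine ⟨?_, fun l h => by simp [check] at h⟩
    intro s h σ hS
    simp only [check, Bool.and_eq_true] at h
    by_cases hex : ∃ v, NS σ s.k v ∧ typ M col σ s.k v ∈
        s.ty.filter fun u => !(inL s.k A u) && !(inL s.k B u)
    · exact ih.1 _ h.2 σ (sat_addFact hS hex)
    · push Not at hex
      refine hno (base_cover hM hS h.1 ?_ (fun h' => absurd h' (lt_irrefl _))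
        (fun h' => absurd h' (lt_irrefl _)))
      intro v hv
      by_contra hcon
      apply hex v hv
      rw [List.mem_filter]
      refine ⟨hS.ty v hv, ?_⟩
      rw [not_or, Bool.not_eq_true, Bool.not_eq_true] at hcon
      rw [hcon.1, hcon.2]
      rfl
  | exN A B i j t ih =>
    refine ⟨?_, fun l h => by simp [check] at h⟩
    intro s h σ hS
    simp only [check, Bool.and_eq_true] at h
    obtain ⟨⟨h1, h2⟩, h3⟩ := h
    by_cases hex : ∃ v, NS σ s.k v ∧ wit s.k A i j (typ M col σ s.k v) = true
    · obtain ⟨v, hv, hw⟩ := hex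
      refine hno (base_cover hM hS h1 (lab_get hS h2) (fun h' => absurd h' (lt_irrefl _)) ?_)
      intro _ _ _ _
      unfold wit at hw
      rw [Bool.and_eq_true, Bool.and_eq_true, bit_eq, bit_eq, bitN, bitN] at hw
      obtain ⟨⟨⟨-, h4⟩, -, h5⟩, h6⟩ := hw
      right; right
      exact ⟨v, Or.inr ⟨hv, h6⟩, h4.symm', h5⟩
    · refine ih.1 _ h3 σ (sat_restrict hS ?_)
      intro v hv
      push Not at hex
      rw [Bool.not_eq_true']
      exact Bool.eq_false_iff.mpr (hex v hv)
  | split r b t₁ t₂ ih₁ ih₂ =>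
    refine ⟨?_, fun l h => by simp [check] at h⟩
    intro s h σ hS
    simp only [check, Bool.and_eq_true] at h
    by_cases hex : ∃ v, NS σ s.k v ∧ typ M col σ s.k v ∈ [(r, b)]
    · exact ih₁.1 _ h.1 σ (sat_addFact hS hex)
    · refine ih₂.1 _ h.2 σ (sat_restrict hS ?_)
      intro v hv
      push Not at hex
      rw [Bool.not_eq_true', ← Bool.not_eq_true]
      intro h'
      apply hex v hv
      unfold tyEq at h'
      rw [Bool.and_eq_true, beq_iff, beq_iff] at h'
      rw [List.mem_singleton]
      exact (Prod.ext h'.1 h'.2).symm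
  | viol A B i t ih =>
    refine ⟨?_, fun l h => by simp [check] at h⟩
    intro s h σ hS
    simp only [check, Bool.and_eq_true] at h
    obtain ⟨⟨⟨h1, h2⟩, h3⟩, h4⟩ := h
    have hi : i < s.k := by
      unfold Nat.blt at h3
      exact Nat.le_of_ble_eq_true h3
    by_cases hex : ∃ v, NS σ s.k v ∧ inL s.k A (typ M col σ s.k v) = true ∧
        ¬ Close M col A.c (Mem M col s.k σ A) (σ i) v
    · obtain ⟨v, hv, hL, hc⟩ := hex
      refine ih.2 _ h4 (fresh (violChild s A i (typ M col σ s.k v))) ?_
        (Function.update σ s.k v) (sat_fresh hM hno (sat_violChild hM hS hi hv hc))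
      rw [List.mem_map]
      refine ⟨_, ?_, rfl⟩
      rw [List.mem_filter]
      exact ⟨hS.ty v hv, violates_of hS hi hL hc⟩
    · push Not at hex
      exact hno (base_cover hM hS h1 (lab_get hS h2) (fun _ _ v hv hL => hex v hv hL)
        (fun h' => absurd h' (lt_irrefl _)))
  | part i t ih =>
    refine ⟨?_, fun l h => by simp [check] at h⟩
    intro s h σ hS
    simp only [check, Bool.and_eq_true] at h
    obtain ⟨⟨h1, h2⟩, h3⟩ := h
    have hi : i < s.k := by
      unfold Nat.blt at h1
      exact Nat.le_of_ble_eq_true h1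
    rw [beq_iff] at h2
    obtain ⟨w, hw, -⟩ := hM (σ i)
    have hns := partner_ns hS hi h2 hw
    refine ih.2 _ h3 (fresh (ext s (typ M col σ s.k w))) ?_
      (Function.update σ s.k w) (sat_fresh hM hno (sat_ext hM hS hns))
    rw [List.mem_map]
    refine ⟨_, ?_, rfl⟩
    rw [List.mem_filter]
    exact ⟨hS.ty w hns, by rw [beq_iff]; exact tag_partner hM hS hi hw hns⟩
  | cons t₁ t₂ ih₁ ih₂ =>
    refine ⟨fun s h => by simp [check] at h, ?_⟩
    intro l h s hs
    cases l with
    | nil => simp [check] at h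
    | cons s' l =>
      simp only [check, Bool.and_eq_true] at h
      rw [List.mem_cons] at hs
      rcases hs with rfl | hs
      · exact ih₁.1 _ h.1
      · exact ih₂.2 _ h.2 s hs
  | nil =>
    refine ⟨?_, ?_⟩
    · intro s h σ hS
      simp only [check, List.any_eq_true] at h
      obtain ⟨f, hf, h⟩ := h
      rw [List.isEmpty_iff] at h
      obtain ⟨v, -, hv⟩ := hS.fs f hf
      rw [h] at hv
      simp at hv
    · intro l h s hs
      cases l with
      | nil => simp at hs
      | cons s' l => simp [check] at h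

end PoolAgent.MP9fa5c3.Cert
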