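import Pool.Agent.W_MP_9fa5c3_co.Sound3
import Pool.Agent.W_MP_9fa5c3_co.CertOk

/-!
# MP_9fa5c3_co : the four starting vertices

Without a (2,2)-cover there are two vertices `a, c` joined in blue with no common red neighbour.
With their partners they satisfy the initial state of the certificate.
-/

namespace PoolAgent.MP9fa5c3.Cert

open Classical

variable {V : Type*} {M : SimpleGraph V} {col : Sym2 V → Bool}

/-- the mask with the given four bits -/
def m4 (a b c d : Bool) : Nat :=
  Nat.lor (Nat.lor (Nat.lor (Nat.lor 0 (if a then Nat.pow 2 0 else 0))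
    (if b then Nat.pow 2 1 else 0)) (if c then Nat.pow 2 2 else 0)) (if d then Nat.pow 2 3 else 0)

lemma mask4 {P : Nat → Prop} {a b c d : Bool} (ha : P 0 ↔ a = true) (hb : P 1 ↔ b = true)
    (hc : P 2 ↔ c = true) (hd : P 3 ↔ d = true) : mask P 4 = m4 a b c d := by
  have key : ∀ (i : Nat) (x : Bool), (P i ↔ x = true) →
      (if P i then Nat.pow 2 i else 0) = (if x = true then Nat.pow 2 i else 0) := by
    intro i x h
    by_cases hx : P i
    · rw [if_pos hx, if_pos (h.mp hx)]
    · rw [if_neg hx, if_neg (fun h' => hx (h.mpr h'))]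
  unfold m4
  rw [mask, mask, mask, mask, mask, key 0 a ha, key 1 b hb, key 2 c hc, key 3 d hd]

lemma m4_mem : ∀ x y z w : Bool, ¬ (x = true ∧ z = true) →
    (m4 x y z w, m4 (!x) (!y) (!z) (!w)) ∈ ([(0, 15), (1, 14), (2, 13), (3, 12), (4, 11), (6, 9),
      (8, 7), (9, 6), (10, 5), (11, 4), (12, 3), (14, 1)] : List Ty) := by
  decide

/-- the special vertices -/
def quad (a a' c c' : V) : Nat → V
  | 0 => a
  | 1 => a'
  | 2 => c
  | _ => c'

/-- the status of the pair `x, y`: adjacency and colour -/
lemma status {x y : V} {b : Bool} (h : (Mᶜ).Adj x y) (hb : col s(x, y) = b) :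
    (CAdj (Mᶜ) col true x y ↔ b = true) ∧ (CAdj (Mᶜ) col false x y ↔ (!b) = true) := by
  subst hb
  constructor
  · exact ⟨fun h' => h'.2, fun h' => ⟨h, h'⟩⟩
  · constructor
    · intro h'
      rw [h'.2]; rfl
    · intro h'
      refine ⟨h, ?_⟩
      rw [Bool.not_eq_true'] at h'
      exact h'

lemma status_not {x y : V} (h : ¬ (Mᶜ).Adj x y) :
    (CAdj (Mᶜ) col true x y ↔ false = true) ∧ (CAdj (Mᶜ) col false x y ↔ false = true) :=
  ⟨⟨fun h' => absurd h'.1 h, fun h' => by cases h'⟩,
    ⟨fun h' => absurd h'.1 h, fun h' => by cases h'⟩⟩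

/-- there is a blue edge without common red neighbour of its ends -/
lemma exists_start [Nonempty V] (hM : IsPerfectMatchingGraph M)
    (hno : ¬ HasCover (Mᶜ) col 2 2) :
    ∃ a c, CAdj (Mᶜ) col false a c ∧
      ∀ w, CAdj (Mᶜ) col true a w → ¬ CAdj (Mᶜ) col true c w := by
  obtain ⟨v⟩ := ‹Nonempty V›
  have h1 : ∃ a c, ¬ Close M col true Set.univ a c := by
    by_contra hcon
    push Not at hcon
    apply hno
    refine cover_two (S := Set.univ) (T := {v}) (c := true) (d := true) ⟨v, trivial⟩
      ⟨v, rfl⟩ (fun x _ y _ => hcon x y) ?_ (fun z => Or.inl trivial)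
    intro x hx y hy
    left
    rw [Set.mem_singleton_iff] at hx hy
    rw [hx, hy]
  obtain ⟨a, c, hac⟩ := h1
  unfold Close at hac
  push Not at hac
  obtain ⟨hne, hred, hcom⟩ := hac
  have hcom' : ∀ w, CAdj (Mᶜ) col true a w → ¬ CAdj (Mᶜ) col true c w :=
    fun w h h' => hcom w trivial h h'.symm'
  by_cases hadj : M.Adj a c
  · exfalso
    obtain ⟨w, h1, h2⟩ := exists_common hM hadj hno true
    exact hcom' w h1 h2
  · have hadj' : (Mᶜ).Adj a c := by
      rw [SimpleGraph.compl_adj]; exact ⟨hne, hadj⟩
    rcases cadj_or (col := col) hadj' true with h | h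
    · exact absurd h hred
    · exact ⟨a, c, h, hcom'⟩

lemma sat_ini (hM : IsPerfectMatchingGraph M) {a a' c c' : V}
    (haa : M.Adj a a') (hcc : M.Adj c c') (hac : CAdj (Mᶜ) col false a c)
    (hcom : ∀ w, CAdj (Mᶜ) col true a w → ¬ CAdj (Mᶜ) col true c w) :
    Sat M col (ini (col s(a, c')) (col s(a', c)) (col s(a', c'))) (quad a a' c c') := by
  -- the six pairs
  have n01 : a ≠ a' := haa.ne
  have n23 : c ≠ c' := hcc.ne
  have n02 : a ≠ c := hac.ne
  have hac1 : ¬ M.Adj a c := by
    have := hac.1
    rw [SimpleGraph.compl_adj] at this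
    exact this.2
  have n12 : a' ≠ c := by rintro rfl; exact hac1 haa
  have n03 : a ≠ c' := by rintro rfl; exact hac1 hcc.symm
  have n13 : a' ≠ c' := by
    intro h
    rw [← h] at hcc
    exact n02 ((hM a').unique haa.symm hcc.symm)
  have e03 : (Mᶜ).Adj a c' := adj_of hM haa n03.symm n13.symm
  have e12 : (Mᶜ).Adj a' c := adj_of hM haa.symm n12.symm n02.symm
  have e13 : (Mᶜ).Adj a' c' := adj_of hM haa.symm n13.symm n03.symm
  have e02 := hac.1
  have x01 : ¬ (Mᶜ).Adj a a' := by rw [SimpleGraph.compl_adj]; exact fun h => h.2 haa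
  have x23 : ¬ (Mᶜ).Adj c c' := by rw [SimpleGraph.compl_adj]; exact fun h => h.2 hcc
  have c20 : col s(c, a) = false := by rw [Sym2.eq_swap]; exact hac.2
  have c30 : col s(c', a) = col s(a, c') := by rw [Sym2.eq_swap]
  have c21 : col s(c, a') = col s(a', c) := by rw [Sym2.eq_swap]
  have c31 : col s(c', a') = col s(a', c') := by rw [Sym2.eq_swap]
  refine ⟨?_, ?_, rfl, ?_, ?_⟩
  · intro i hi j hj h
    have hi' : i < 4 := hi
    have hj' : j < 4 := hj
    interval_cases i <;> interval_cases j <;>
      first
      | rfl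
      | exact absurd h n01
      | exact absurd h n02
      | exact absurd h n03
      | exact absurd h n12
      | exact absurd h n13
      | exact absurd h n23
      | exact absurd h n01.symm
      | exact absurd h n02.symm
      | exact absurd h n03.symm
      | exact absurd h n12.symm
      | exact absurd h n13.symm
      | exact absurd h n23.symm
  · intro j hj
    have hj' : j < 4 := hj
    have loop : ∀ x : V, ¬ (Mᶜ).Adj x x := fun x h => h.ne rfl
    have s00 := status_not (col := col) (loop a)
    have s11 := status_not (col := col) (loop a')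
    have s22 := status_not (col := col) (loop c)
    have s33 := status_not (col := col) (loop c')
    have s01 := status_not (col := col) x01
    have s10 := status_not (col := col) (fun h => x01 h.symm)
    have s23 := status_not (col := col) x23
    have s32 := status_not (col := col) (fun h => x23 h.symm)
    have s02 := status (col := col) e02 hac.2
    have s20 := status (col := col) e02.symm c20
    have s03 := status (col := col) e03 rfl
    have s30 := status (col := col) e03.symm c30
    have s12 := status (col := col) e12 rfl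
    have s21 := status (col := col) e12.symm c21
    have s13 := status (col := col) e13 rfl
    have s31 := status (col := col) e13.symm c31
    interval_cases j
    · change _ = some (mask _ 4, mask _ 4)
      rw [mask4 s00.1 s01.1 s02.1 s03.1, mask4 s00.2 s01.2 s02.2 s03.2]
      cases col s(a, c') <;> cases col s(a', c) <;> cases col s(a', c') <;> rfl
    · change _ = some (mask _ 4, mask _ 4)
      rw [mask4 s10.1 s11.1 s12.1 s13.1, mask4 s10.2 s11.2 s12.2 s13.2]
      cases col s(a, c') <;> cases col s(a', c) <;> cases col s(a', c') <;> rfl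
    · change _ = some (mask _ 4, mask _ 4)
      rw [mask4 s20.1 s21.1 s22.1 s23.1, mask4 s20.2 s21.2 s22.2 s23.2]
      cases col s(a, c') <;> cases col s(a', c) <;> cases col s(a', c') <;> rfl
    · change _ = some (mask _ 4, mask _ 4)
      rw [mask4 s30.1 s31.1 s32.1 s33.1, mask4 s30.2 s31.2 s32.2 s33.2]
      cases col s(a, c') <;> cases col s(a', c) <;> cases col s(a', c') <;> rfl
  · intro v hv
    have v0 : v ≠ a := hv 0 (by decide : (0 : Nat) < 4)
    have v1 : v ≠ a' := hv 1 (by decide : (1 : Nat) < 4)
    have v2 : v ≠ c := hv 2 (by decide : (2 : Nat) < 4)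
    have v3 : v ≠ c' := hv 3 (by decide : (3 : Nat) < 4)
    have s0 := status (col := col) (adj_of hM haa v0 v1).symm rfl
    have s1 := status (col := col) (adj_of hM haa.symm v1 v0).symm rfl
    have s2 := status (col := col) (adj_of hM hcc v2 v3).symm rfl
    have s3 := status (col := col) (adj_of hM hcc.symm v3 v2).symm rfl
    have hnot : ¬ (col s(v, a) = true ∧ col s(v, c) = true) := by
      rintro ⟨h1, h2⟩
      exact hcom v (s0.1.mpr h1).symm' (s2.1.mpr h2).symm'
    change (mask _ 4, mask _ 4) ∈ _
    rw [mask4 s0.1 s1.1 s2.1 s3.1, mask4 s0.2 s1.2 s2.2 s3.2]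
    exact m4_mem _ _ _ _ hnot
  · intro f hf
    have : f ∈ ([] : List (List Ty)) := hf
    simp at this

end PoolAgent.MP9fa5c3.Cert
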